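import Pool.Agent.SDet.Border

/-!
General border inequality: mixed derivatives of a fixed polynomial which is a limit of sums of
members of the top level of a family.
-/

open MvPolynomial Finset Filter Topology
open scoped BigOperators ENNReal

namespace Pool.SDD

variable {K : Type*} [Field K]

/-- extraction of one mixed coefficient from the sum of the summands -/
lemma extractG {Z E Y0 : Type} {ι ι' : Type} {T D dl nu : ℕ}
    (pK : ι' → MvPolynomial E K) (pk : ι → MvPolynomial E K)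
    (φ0 : Z → MvPolynomial Y0 K) (φ : Z → MvPolynomial (Y0 ⊕ Fin D) K)
    (hφ1 : ∀ x, (φ x).totalDegree ≤ 1)
    (hφ2 : ∀ x, aeval (Sum.elim X 0 : _ → MvPolynomial Y0 K) (φ x) = φ0 x)
    (hR2 : ∀ (A : E → MvPolynomial (Y0 ⊕ Fin D) K),
      (∀ e, (A e).totalDegree ≤ dl) → ∀ F ∈ Wl (fun j => aeval A (pK j)) nu,
      ∃ G ∈ Wl (fun j => aeval (fun e => aeval (Sum.elim X 0 : _ →
        MvPolynomial Y0 K) (A e)) (pk j)) (nu + D * (dl - 1)),
      ∀ u : Y0 →₀ ℕ, coeff u G =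
        coeff (u.embDomain ⟨Sum.inl, Sum.inl_injective⟩ +
          ∑ b : Fin D, Finsupp.single (Sum.inr b) 1) F)
    (A : Fin T → E → MvPolynomial Z K) (hA : ∀ t e, (A t e).totalDegree ≤ dl)
    (f : Fin T → MvPolynomial Z K)
    (hf : ∀ t, f t ∈ Wl (fun j => aeval (A t) (pK j)) nu) :
    ∃ G : Fin T → MvPolynomial Y0 K,
      (∀ t, G t ∈ Wl (fun j => aeval (fun e => aeval φ0 (A t e)) (pk j))
        (nu + D * (dl - 1))) ∧
      ∀ u, coeff u (∑ t, G t) = coeff (u.embDomain ⟨Sum.inl, Sum.inl_injective⟩ +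
          ∑ b : Fin D, Finsupp.single (Sum.inr b) 1) (aeval φ (∑ t, f t)) := by
  classical
  have hcomp0 : ∀ q : MvPolynomial Z K,
      aeval (Sum.elim X 0 : _ → MvPolynomial Y0 K) (aeval φ q) = aeval φ0 q := by
    intro q
    rw [comp_aeval_apply]
    congr 2
    funext x
    exact hφ2 x
  have hF : ∀ t, aeval φ (f t) ∈
      Wl (fun j => aeval (fun e => aeval φ (A t e)) (pK j)) nu := by
    intro t
    have h1 := aeval_mem_Wl φ hφ1 (hf t)
    have h2 : (fun j => aeval φ (aeval (A t) (pK j))) =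
        fun j => aeval (fun e => aeval φ (A t e)) (pK j) := by
      funext j
      rw [comp_aeval_apply]
    rw [h2] at h1
    exact h1
  have hdeg : ∀ t e, (aeval φ (A t e)).totalDegree ≤ dl := by
    intro t e
    have h1 := totalDegree_aeval_le_mul φ 1 hφ1 (A t e)
    rw [mul_one] at h1
    exact h1.trans (hA t e)
  choose G hG hGc using fun t => hR2 (fun e => aeval φ (A t e)) (hdeg t) _ (hF t)
  refine ⟨G, ?_, ?_⟩
  · intro t
    have h1 := hG t
    simp_rw [hcomp0] at h1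
    exact h1
  · intro u
    rw [coeff_sum, Finset.sum_congr rfl fun t _ => hGc t u, ← coeff_sum, ← map_sum]

variable [TopologicalSpace K] [IsTopologicalRing K] [T1Space K]

/-- border form, at the level of dimensions -/
lemma finrank_Wl_border {Z E Y0 C : Type} {ι ι' : Type} [Finite ι] [Finite Y0] [Finite C]
    {T D dl nu : ℕ}
    (pK : ι' → MvPolynomial E K) (pk : ι → MvPolynomial E K)
    (φ0 : Z → MvPolynomial Y0 K) (φ : C → Z → MvPolynomial (Y0 ⊕ Fin D) K)
    (hφ1 : ∀ c x, (φ c x).totalDegree ≤ 1)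
    (hφ2 : ∀ c x, aeval (Sum.elim X 0 : _ → MvPolynomial Y0 K) (φ c x) = φ0 x)
    (hR2 : ∀ (A : E → MvPolynomial (Y0 ⊕ Fin D) K),
      (∀ e, (A e).totalDegree ≤ dl) → ∀ F ∈ Wl (fun j => aeval A (pK j)) nu,
      ∃ G ∈ Wl (fun j => aeval (fun e => aeval (Sum.elim X 0 : _ →
        MvPolynomial Y0 K) (A e)) (pk j)) (nu + D * (dl - 1)),
      ∀ u : Y0 →₀ ℕ, coeff u G =
        coeff (u.embDomain ⟨Sum.inl, Sum.inl_injective⟩ +
          ∑ b : Fin D, Finsupp.single (Sum.inr b) 1) F)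
    (A : ℕ → Fin T → E → MvPolynomial Z K)
    (hA : ∀ r t e, (A r t e).totalDegree ≤ dl)
    (f : ℕ → Fin T → MvPolynomial Z K)
    (hf : ∀ r t, f r t ∈ Wl (fun j => aeval (A r t) (pK j)) nu)
    (S : Finset (Z →₀ ℕ)) (hS : ∀ r, (∑ t, f r t).support ⊆ S) (F : MvPolynomial Z K)
    (h : ∀ u, Tendsto (fun r => coeff u (∑ t, f r t)) atTop (𝓝 (coeff u F)))
    (g : C → MvPolynomial Y0 K)
    (hg : ∀ c u, coeff u (g c) = coeff (u.embDomain ⟨Sum.inl, Sum.inl_injective⟩ +
          ∑ b : Fin D, Finsupp.single (Sum.inr b) 1) (aeval (φ c) F)) (l : ℕ) :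
    ∀ᶠ r in atTop,
    Module.finrank K (Wl g l) ≤
      ∑ t, Module.finrank K (Wl (fun j => aeval (fun e => aeval φ0 (A r t e)) (pk j))
        (l + (nu + D * (dl - 1)))) := by
  classical
  choose G hG hGc using fun (r : ℕ) (c : C) =>
    extractG pK pk φ0 (φ c) (hφ1 c) (hφ2 c) hR2 (A r) (hA r) (f r) (hf r)
  have hfin := finite_degree_le Y0 l
  let I := {μ : Y0 →₀ ℕ // μ.degree ≤ l} × C
  let v : I → MvPolynomial Y0 K := fun i => monomial i.1.1 1 * g i.2
  let w : ℕ → I → MvPolynomial Y0 K := fun r i => monomial i.1.1 1 * ∑ t, G r i.2 t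
  have hV : Wl g l = Submodule.span K (Set.range v) := by
    unfold Wl
    congr 1
    ext x
    constructor
    · rintro ⟨μ, k, hμ, rfl⟩
      exact ⟨(⟨μ, hμ⟩, k), rfl⟩
    · rintro ⟨⟨μ, k⟩, rfl⟩
      exact ⟨μ.1, k, μ.2, rfl⟩
  have hcoef : ∀ c u, Tendsto (fun r => coeff u (∑ t, G r c t)) atTop
      (𝓝 (coeff u (g c))) := by
    intro c u
    let Λ : MvPolynomial Z K →ₗ[K] K :=
      (lcoeff K (u.embDomain ⟨Sum.inl, Sum.inl_injective⟩ +
          ∑ b : Fin D, Finsupp.single (Sum.inr b) 1)) ∘ₗ (aeval (φ c)).toLinearMap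
    have h1 := Pool.SDB.tendsto_linear Λ S (fun r => ∑ t, f r t) _ hS h
    have h2 : Λ F = coeff u (g c) := (hg c u).symm
    rw [h2] at h1
    refine h1.congr fun r => ?_
    exact (hGc r c u).symm
  have hw : ∀ i u, Tendsto (fun r => coeff u (w r i)) atTop (𝓝 (coeff u (v i))) := by
    intro i u
    change Tendsto (fun r => coeff u (monomial i.1.1 (1 : K) * ∑ t, G r i.2 t)) atTop
      (𝓝 (coeff u (monomial i.1.1 (1 : K) * g i.2)))
    simp only [coeff_monomial_mul', one_mul]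
    split_ifs
    · exact hcoef _ _
    · exact tendsto_const_nhds
  have hI : Finite I := inferInstance
  have h3 := Pool.SDB.finrank_le_eventually v w hw
  filter_upwards [h3] with r hr
  rw [hV]
  refine hr.trans ?_
  have h4 : Submodule.span K (Set.range (w r)) ≤
      ⨆ t, Wl (fun j => aeval (fun e => aeval φ0 (A r t e)) (pk j))
        (l + (nu + D * (dl - 1))) := by
    rw [Submodule.span_le]
    rintro _ ⟨i, rfl⟩
    change monomial i.1.1 (1 : K) * ∑ t, G r i.2 t ∈ _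
    rw [Finset.mul_sum]
    refine Submodule.sum_mem _ fun t _ => ?_
    exact Submodule.mem_iSup_of_mem t (monomial_mul_mem_Wl i.1.2 (hG r i.2 t))
  exact (Submodule.finrank_mono h4).trans (finrank_iSup_le fun t => _)

/-- the general border inequality -/
theorem border_ineq {Z E Y0 C : Type} {ι ι' : Type} [Finite ι] [Fintype Y0] [Finite C]
    {T D dl nu : ℕ}
    (pK : ι' → MvPolynomial E K) (pk : ι → MvPolynomial E K)
    (φ0 : Z → MvPolynomial Y0 K) (φ : C → Z → MvPolynomial (Y0 ⊕ Fin D) K)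
    (hφ0 : ∀ x, (φ0 x).totalDegree ≤ 1)
    (hφ1 : ∀ c x, (φ c x).totalDegree ≤ 1)
    (hφ2 : ∀ c x, aeval (Sum.elim X 0 : _ → MvPolynomial Y0 K) (φ c x) = φ0 x)
    (hR2 : ∀ (A : E → MvPolynomial (Y0 ⊕ Fin D) K),
      (∀ e, (A e).totalDegree ≤ dl) → ∀ F ∈ Wl (fun j => aeval A (pK j)) nu,
      ∃ G ∈ Wl (fun j => aeval (fun e => aeval (Sum.elim X 0 : _ →
        MvPolynomial Y0 K) (A e)) (pk j)) (nu + D * (dl - 1)),
      ∀ u : Y0 →₀ ℕ, coeff u G =
        coeff (u.embDomain ⟨Sum.inl, Sum.inl_injective⟩ +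
          ∑ b : Fin D, Finsupp.single (Sum.inr b) 1) F)
    (Q : ℝ≥0∞) (S : ℝ≥0∞)
    (hU : ∀ A : E → MvPolynomial Y0 K, (∀ e, (A e).totalDegree ≤ dl) →
      (1 - Q) ^ (Fintype.card Y0 + 1) *
        ∑' l, Q ^ l * (Module.finrank K (Wl (fun j => aeval A (pk j)) l) : ℝ≥0∞) ≤ S)
    (A : ℕ → Fin T → E → MvPolynomial Z K)
    (hA : ∀ r t e, (A r t e).totalDegree ≤ dl)
    (f : ℕ → Fin T → MvPolynomial Z K)
    (hf : ∀ r t, f r t ∈ Wl (fun j => aeval (A r t) (pK j)) nu)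
    (Sf : Finset (Z →₀ ℕ)) (hSf : ∀ r, (∑ t, f r t).support ⊆ Sf) (F : MvPolynomial Z K)
    (h : ∀ u, Tendsto (fun r => coeff u (∑ t, f r t)) atTop (𝓝 (coeff u F)))
    (g : C → MvPolynomial Y0 K)
    (hg : ∀ c u, coeff u (g c) = coeff (u.embDomain ⟨Sum.inl, Sum.inl_injective⟩ +
          ∑ b : Fin D, Finsupp.single (Sum.inr b) 1) (aeval (φ c) F)) :
    Q ^ (nu + D * (dl - 1)) * ((1 - Q) ^ (Fintype.card Y0 + 1) *
      ∑' l, Q ^ l * (Module.finrank K (Wl g l) : ℝ≥0∞)) ≤ T * S := by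
  classical
  set c := nu + D * (dl - 1) with hc
  set M := Fintype.card Y0 + 1 with hM
  set vd : ℕ → ℝ≥0∞ := fun l => (Module.finrank K (Wl g l) : ℝ≥0∞) with hvd
  have hdeg : ∀ r t e, (aeval φ0 (A r t e)).totalDegree ≤ dl := by
    intro r t e
    have h1 := totalDegree_aeval_le_mul φ0 1 hφ0 (A r t e)
    rw [mul_one] at h1
    exact h1.trans (hA r t e)
  have hpart : ∀ L : ℕ, (1 - Q) ^ M * (Q ^ c * ∑ l ∈ range L, Q ^ l * vd l) ≤ T * S := by
    intro L
    have hev : ∀ᶠ r in atTop, ∀ l ∈ range L,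
        Module.finrank K (Wl g l) ≤
        ∑ t, Module.finrank K (Wl (fun j => aeval (fun e => aeval φ0 (A r t e)) (pk j))
          (l + c)) := by
      rw [Filter.eventually_all_finset]
      intro l _
      exact finrank_Wl_border pK pk φ0 φ hφ1 hφ2 hR2 A hA f hf Sf hSf F h g hg l
    obtain ⟨r, hr⟩ := hev.exists
    set gg : Fin T → ι → MvPolynomial Y0 K :=
      fun t j => aeval (fun e => aeval φ0 (A r t e)) (pk j) with hgg
    have h1 : Q ^ c * ∑ l ∈ range L, Q ^ l * vd l ≤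
        ∑ t, ∑' l, Q ^ l * (Module.finrank K (Wl (gg t) l) : ℝ≥0∞) := by
      calc Q ^ c * ∑ l ∈ range L, Q ^ l * vd l
          ≤ Q ^ c * ∑ l ∈ range L, ∑ t,
              Q ^ l * (Module.finrank K (Wl (gg t) (l + c)) : ℝ≥0∞) := by
            refine mul_le_mul_right (Finset.sum_le_sum fun l hl => ?_) _
            rw [← Finset.mul_sum]
            refine mul_le_mul_right ?_ _
            have h2 := hr l hl
            change ((Module.finrank K (Wl g l) : ℕ) : ℝ≥0∞) ≤ _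
            exact_mod_cast h2
        _ ≤ Q ^ c * ∑' l, ∑ t,
              Q ^ l * (Module.finrank K (Wl (gg t) (l + c)) : ℝ≥0∞) :=
            mul_le_mul_right (ENNReal.sum_le_tsum _) _
        _ = ∑ t, Q ^ c * ∑' l, Q ^ l * (Module.finrank K (Wl (gg t) (l + c)) : ℝ≥0∞) := by
            rw [Summable.tsum_finsetSum (fun _ _ => ENNReal.summable), Finset.mul_sum]
        _ ≤ _ := by
            refine Finset.sum_le_sum fun t _ => ?_
            exact series_shift (fun l => Module.finrank K (Wl (gg t) l)) c Q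
    calc (1 - Q) ^ M * (Q ^ c * ∑ l ∈ range L, Q ^ l * vd l)
        ≤ (1 - Q) ^ M * ∑ t, ∑' l, Q ^ l * (Module.finrank K (Wl (gg t) l) : ℝ≥0∞) :=
          mul_le_mul_right h1 _
      _ ≤ T * S := by
          rw [Finset.mul_sum]
          refine (Finset.sum_le_sum fun t _ =>
            hU (fun e => aeval φ0 (A r t e)) (hdeg r t)).trans ?_
          rw [Finset.sum_const, Finset.card_univ, Fintype.card_fin, nsmul_eq_mul]
  have hfinal : (1 - Q) ^ M * (Q ^ c * ∑' l, Q ^ l * vd l) ≤ T * S := by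
    rw [ENNReal.tsum_eq_iSup_nat, ENNReal.mul_iSup, ENNReal.mul_iSup]
    exact iSup_le hpart
  calc Q ^ c * ((1 - Q) ^ M * ∑' l, Q ^ l * vd l)
      = (1 - Q) ^ M * (Q ^ c * ∑' l, Q ^ l * vd l) := by ring
    _ ≤ _ := hfinal

end Pool.SDD
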