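import Pool.Agent.SDet.Main

open MvPolynomial Finset
open scoped BigOperators ENNReal

namespace Pool.SDL

variable {K : Type} [Field K]

theorem main_real [CharZero K] {n m t D N a : ℕ} (s : Fin t → ℕ) (hs : ∀ i, s i ≤ m)
    (A : ∀ i, Matrix (Fin (s i)) (Fin (s i)) (MvPolynomial (Fin n × Fin n) K))
    (hA : ∀ i p q, (A i p q).totalDegree ≤ 1)
    (h : (Matrix.of fun i j => (X (i, j) : MvPolynomial (Fin n × Fin n) K)).permanent =
      ∑ i, (A i).det)
    (hnm : n ≤ m) (hD : 1 ≤ D) (haN : a < N) (hn : D * (2 * (N + a) + 1) ≤ n)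
    (q : ℝ) (hq0 : 0 < q) (hq1 : q < 1) :
    (1 - (1 - q ^ N) ^ (a + 1)) ^ (2 * D) ≤
      t * q ^ ((N - a) * (2 * D)) *
        (∑ j ∈ Finset.range (D + 1), (Nat.choose (m - D - 1 + j) j : ℝ) * (1 - q) ^ j) ^ 2 := by
  have hQ : ENNReal.ofReal q < 1 := by
    rw [← ENNReal.ofReal_one]
    exact (ENNReal.ofReal_lt_ofReal_iff (by norm_num)).mpr hq1
  have key := main_ennreal s hs A hA h hnm hD haN hn (ENNReal.ofReal q) hQ
  have e0 : (1 : ℝ≥0∞) - ENNReal.ofReal q = ENNReal.ofReal (1 - q) := by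
    rw [ENNReal.ofReal_sub _ hq0.le, ENNReal.ofReal_one]
  have h1q : 0 ≤ 1 - q := by linarith
  have hqN : q ^ N ≤ 1 := pow_le_one₀ hq0.le hq1.le
  have h1qN : 0 ≤ 1 - q ^ N := by linarith
  have h1qN' : (1 - q ^ N) ^ (a + 1) ≤ 1 := pow_le_one₀ h1qN (by linarith [pow_pos hq0 N])
  have e1 : ((1 : ℝ≥0∞) - (1 - ENNReal.ofReal q ^ N) ^ (a + 1)) ^ (2 * D) =
      ENNReal.ofReal ((1 - (1 - q ^ N) ^ (a + 1)) ^ (2 * D)) := by
    rw [ENNReal.ofReal_pow (by linarith), ENNReal.ofReal_sub _ (pow_nonneg h1qN _),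
      ENNReal.ofReal_pow h1qN, ENNReal.ofReal_sub _ (pow_nonneg hq0.le _),
      ENNReal.ofReal_pow hq0.le, ENNReal.ofReal_one]
  have e2 : ∑ j ∈ Finset.range (D + 1), (Nat.choose (m - D - 1 + j) j : ℝ≥0∞) *
      (1 - ENNReal.ofReal q) ^ j = ENNReal.ofReal (∑ j ∈ Finset.range (D + 1),
        (Nat.choose (m - D - 1 + j) j : ℝ) * (1 - q) ^ j) := by
    rw [ENNReal.ofReal_sum_of_nonneg (fun j _ => by positivity)]
    apply Finset.sum_congr rfl
    intro j _
    rw [e0, ENNReal.ofReal_mul (by positivity), ENNReal.ofReal_pow h1q, ENNReal.ofReal_natCast]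
  have hS : 0 ≤ ∑ j ∈ Finset.range (D + 1), (Nat.choose (m - D - 1 + j) j : ℝ) * (1 - q) ^ j :=
    Finset.sum_nonneg (fun j _ => by positivity)
  rw [e1, e2, ← ENNReal.ofReal_pow hq0.le, ← ENNReal.ofReal_pow hS, ← ENNReal.ofReal_natCast,
    ← ENNReal.ofReal_mul (by positivity), ← ENNReal.ofReal_mul (by positivity)] at key
  have h3 := (ENNReal.ofReal_le_ofReal_iff (by positivity)).mp key
  calc _ ≤ _ := h3
    _ = _ := by ring

theorem permanent_generic_ne_zero [CharZero K] (n : ℕ) :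
    (Matrix.of fun i j => (X (i, j) : MvPolynomial (Fin n × Fin n) K)).permanent ≠ 0 := by
  classical
  intro h
  have h1 := congrArg (aeval (R := K) (fun x : Fin n × Fin n => if x.1 = x.2 then (1:K) else 0)) h
  rw [Matrix.permanent, map_sum, map_zero] at h1
  simp only [map_prod, Matrix.of_apply, aeval_X] at h1
  rw [Finset.sum_eq_single (1 : Equiv.Perm (Fin n))] at h1
  · simp at h1
  · intro σ _ hσ
    have : ∃ i, σ i ≠ i := by
      by_contra hcon
      push Not at hcon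
      exact hσ (Equiv.ext hcon)
    obtain ⟨i, hi⟩ := this
    exact Finset.prod_eq_zero (Finset.mem_univ i) (by simp [hi])
  · intro h; exact absurd (Finset.mem_univ _) h

theorem final : ∃ c : ℝ, 0 < c ∧ ∀ (K : Type) [Field K] [CharZero K] (n m t : ℕ), 1 ≤ n → n ≤ m →
    ∀ (s : Fin t → ℕ) (A : ∀ i, Matrix (Fin (s i)) (Fin (s i)) (MvPolynomial (Fin n × Fin n) K)),
    (∀ i, s i ≤ m) → (∀ i p q, (A i p q).totalDegree ≤ 1) →
    (Matrix.of fun i j => (X (i, j) : MvPolynomial (Fin n × Fin n) K)).permanent =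
      ∑ i, (A i).det →
    Real.exp (c * n ^ 2 / (m * (1 + Real.log (m / n)) ^ 2)) ≤ 2 * t := by
  obtain ⟨c, hc, H⟩ := N_numerics
  refine ⟨c, hc, ?_⟩
  intro K _ _ n m t hn hnm s A hs hA h
  have ht : 1 ≤ t := by
    rcases Nat.eq_zero_or_pos t with ht | ht
    · subst ht
      exact absurd (by simpa using h) (permanent_generic_ne_zero (K := K) n)
    · exact ht
  exact H n m t hn hnm ht (fun D N a hD haN hDn q hq0 hq1 =>
    main_real s hs A hA h hnm hD haN hDn q hq0 hq1)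

end Pool.SDL
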