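import Pool.Agent.SDet.LB2
import Pool.Agent.Helper86.SDET.LC
import Pool.Agent.Helper55.SD.Up

/-!
Sums of determinants, side (L): series of the ideal generated by the last elementary symmetric
functions.
-/

namespace SDet

open MvPolynomial Finset
open scoped BigOperators ENNReal

theorem geom_one_sub (Q : ℝ≥0∞) (hQ : Q < 1) (n : ℕ) :
    (1 - Q) * ∑ i ∈ range n, Q ^ i = 1 - Q ^ n := by
  induction n with
  | zero => simp
  | succ n ih =>
    have hn : Q ^ n ≤ 1 := pow_le_one₀ zero_le hQ.le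
    have hf : Q ^ n ≠ ⊤ := (lt_of_le_of_lt hn ENNReal.one_lt_top).ne
    rw [sum_range_succ, mul_add, ih, mul_comm (1 - Q) (Q ^ n), ENNReal.mul_sub (fun _ _ => hf),
      mul_one, ← pow_succ]
    apply tsub_add_tsub_cancel hn
    exact pow_le_pow_right_of_le_one' hQ.le (by omega)

/-- the series of the quotient basis -/
theorem tsum_ldeg (N a : ℕ) (Q : ℝ≥0∞) :
    ∑' x : LT N a, Q ^ ldeg x = (1 - Q)⁻¹ * ((∏ j : Fin N, ∑ i ∈ range (j + 1), Q ^ i) *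
      ∏ k : Fin (N - a - 1), (1 - Q ^ ((k : ℕ) + 1))⁻¹) := by
  have h1 : ∀ x : LT N a, Q ^ ldeg x = Q ^ x.1 *
      ((∏ j : Fin N, Q ^ ((x.2.1 j : Fin (j + 1)) : ℕ)) *
        Q ^ (∑ k : Fin (N - a - 1), ((k : ℕ) + 1) * x.2.2 k)) := by
    intro x
    unfold ldeg
    rw [pow_add, pow_add, mul_assoc, Finset.prod_pow_eq_pow_sum]
  simp_rw [h1]
  rw [ENNReal.tsum_prod']
  simp only
  simp_rw [ENNReal.tsum_mul_left]
  rw [ENNReal.tsum_mul_right, ENNReal.tsum_geometric]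
  congr 1
  rw [ENNReal.tsum_prod']
  simp only
  simp_rw [ENNReal.tsum_mul_left]
  rw [ENNReal.tsum_mul_right, Helper86.SDET.tsum_pi]
  congr 1
  rw [tsum_fintype]
  have h2 : ∀ j : Fin N, ∑ i ∈ range (j + 1), Q ^ i = ∑ i : Fin (j + 1), Q ^ (i : ℕ) := by
    intro j
    rw [Fin.sum_univ_eq_sum_range]
  simp_rw [h2]
  rw [Finset.prod_univ_sum]
  simp [Fintype.piFinset_univ]

/-- the ideal generated by the last elementary symmetric functions is large -/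
theorem LJ_series (K : Type*) [Field K]
    (N a : ℕ) (haN : a < N) (Q : ℝ≥0∞) (hQ : Q < 1) :
    1 - (1 - Q ^ N) ^ (a + 1) ≤
      (1 - Q) ^ (N + 1) * ∑' d, Q ^ d * (Module.finrank K (LJ K N a d) : ℝ≥0∞) := by
  classical
  set A := ∑' d, Q ^ d * (Module.finrank K (LJ K N a d) : ℝ≥0∞) with hA
  have h1 : ((1 - Q)⁻¹) ^ (N + 1) ≤ A + ∑' x : LT N a, Q ^ ldeg x := by
    have h := Helper86.SDET.tsum_mon (K := K) (σ := Option (Fin N)) Q
    rw [Fintype.card_option, Fintype.card_fin] at h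
    rw [← h, Helper86.SDET.tsum_fib (fun x : LT N a => ldeg x) (ldeg_fin N a) Q, hA, ← ENNReal.tsum_add]
    apply ENNReal.tsum_le_tsum
    intro d
    rw [← mul_add]
    gcongr
    exact_mod_cast lb2_finrank K N a haN d
  rw [tsum_ldeg] at h1
  have hQ0 : 1 - Q ≠ 0 := (tsub_pos_of_lt hQ).ne'
  have hQt : 1 - Q ≠ ⊤ := (lt_of_le_of_lt tsub_le_self ENNReal.one_lt_top).ne
  rw [tsub_le_iff_right]
  have h2 : (1 - Q) ^ (N + 1) * ((1 - Q)⁻¹) ^ (N + 1) = 1 := by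
    rw [← mul_pow, ENNReal.mul_inv_cancel hQ0 hQt, one_pow]
  have h3 : (1 - Q) ^ (N + 1) * ((1 - Q)⁻¹ * ((∏ j : Fin N, ∑ i ∈ range (j + 1), Q ^ i) *
      ∏ k : Fin (N - a - 1), (1 - Q ^ ((k : ℕ) + 1))⁻¹)) ≤ (1 - Q ^ N) ^ (a + 1) := by
    have e1 : (1 - Q) ^ (N + 1) * ((1 - Q)⁻¹ * ((∏ j : Fin N, ∑ i ∈ range (j + 1), Q ^ i) *
        ∏ k : Fin (N - a - 1), (1 - Q ^ ((k : ℕ) + 1))⁻¹)) =
        ((1 - Q) * (1 - Q)⁻¹) * (((1 - Q) ^ N * (∏ j : Fin N, ∑ i ∈ range (j + 1), Q ^ i)) *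
        ∏ k : Fin (N - a - 1), (1 - Q ^ ((k : ℕ) + 1))⁻¹) := by ring
    rw [e1, ENNReal.mul_inv_cancel hQ0 hQt, one_mul]
    have e2 : (1 - Q) ^ N * (∏ j : Fin N, ∑ i ∈ range (j + 1), Q ^ i) =
        ∏ j ∈ range N, (1 - Q ^ (j + 1)) := by
      rw [← Fin.prod_univ_eq_prod_range (fun j => 1 - Q ^ (j + 1)) N]
      have : (1 - Q) ^ N = ∏ _j : Fin N, (1 - Q) := by simp
      rw [this, ← Finset.prod_mul_distrib]
      apply Finset.prod_congr rfl
      intro j _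
      exact geom_one_sub Q hQ (j + 1)
    rw [e2, Fin.prod_univ_eq_prod_range (fun j => (1 - Q ^ (j + 1))⁻¹) (N - a - 1)]
    have e3 : N = (N - a - 1) + (a + 1) := by omega
    have e4 : ∏ j ∈ range N, (1 - Q ^ (j + 1)) =
        (∏ j ∈ range (N - a - 1), (1 - Q ^ (j + 1))) *
          ∏ j ∈ range (a + 1), (1 - Q ^ (N - a - 1 + j + 1)) := by
      conv_lhs => rw [e3]
      rw [Finset.prod_range_add]
    rw [e4]
    have e5 : (∏ j ∈ range (N - a - 1), (1 - Q ^ (j + 1))) *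
          (∏ j ∈ range (a + 1), (1 - Q ^ (N - a - 1 + j + 1))) *
        ∏ j ∈ range (N - a - 1), (1 - Q ^ (j + 1))⁻¹ =
        (∏ j ∈ range (N - a - 1), ((1 - Q ^ (j + 1)) * (1 - Q ^ (j + 1))⁻¹)) *
          ∏ j ∈ range (a + 1), (1 - Q ^ (N - a - 1 + j + 1)) := by
      rw [Finset.prod_mul_distrib]; ring
    rw [e5]
    have e6 : ∏ j ∈ range (N - a - 1), ((1 - Q ^ (j + 1)) * (1 - Q ^ (j + 1))⁻¹) = 1 := by
      apply Finset.prod_eq_one
      intro j _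
      apply ENNReal.mul_inv_cancel
      · apply (tsub_pos_of_lt _).ne'
        exact pow_lt_one₀ zero_le hQ (by omega)
      · exact (lt_of_le_of_lt tsub_le_self ENNReal.one_lt_top).ne
    rw [e6, one_mul]
    have e7 : (1 - Q ^ N) ^ (a + 1) = ∏ _j ∈ range (a + 1), (1 - Q ^ N) := by simp
    rw [e7]
    apply Finset.prod_le_prod'
    intro j hj
    apply tsub_le_tsub_left
    apply pow_le_pow_right_of_le_one' hQ.le
    simp at hj
    omega
  calc (1 : ℝ≥0∞) = (1 - Q) ^ (N + 1) * ((1 - Q)⁻¹) ^ (N + 1) := h2.symm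
    _ ≤ (1 - Q) ^ (N + 1) * (A + ((1 - Q)⁻¹ * ((∏ j : Fin N, ∑ i ∈ range (j + 1), Q ^ i) *
      ∏ k : Fin (N - a - 1), (1 - Q ^ ((k : ℕ) + 1))⁻¹))) := by gcongr
    _ ≤ _ := by
      rw [mul_add]
      gcongr

/-- the same statement for the space used in the block lemma -/
theorem LJ_series' (K : Type*) [Field K] (N a : ℕ) (haN : a < N) (Q : ℝ≥0∞) (hQ : Q < 1) :
    1 - (1 - Q ^ N) ^ (a + 1) ≤
      (1 - Q) ^ (N + 1) *
        ∑' e, Q ^ e * (Module.finrank K (Pool.SDL.LJ K N a e) : ℝ≥0∞) :=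
  LJ_series K N a haN Q hQ

end SDet
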