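import Pool.Agent.SDet.PfFinal
import Pool.Agent.Helper69.SDD.R2
import Pool.Agent.Helper86.SDET.N3

/-!
Second wave of the project SDET: the end.
-/

open MvPolynomial Finset Filter Topology
open scoped BigOperators ENNReal

namespace Pool.SDF

theorem main_real' {K : Type} [NormedField K] [CharZero K] {n m d nu T D N a : ℕ}
    (hd : 1 ≤ d) (haN : a < N) (hn : D * (2 * (N + a) + 1) ≤ n) (hD : D < m)
    (h : Apx K n m d nu T) (q : ℝ) (hq0 : 0 < q) (hq1 : q < 1) :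
    q ^ (nu + D * (d - 1)) * (1 - (1 - q ^ N) ^ (a + 1)) ^ (2 * D) ≤
      q ^ ((N - a) * (2 * D)) * (T * ∑ j ∈ Finset.range (2 * D + 1),
        (Nat.choose (2 * m - 2 * D - 1 + j) j : ℝ) * (1 - q ^ d) ^ j) :=
  main_real (fun k _ A hA F hF => Pool.SDD.R2 (Pool.PF.pfam K (2 * m)) Pool.PF.pfam_tower
    k D nu d hd A hA F hF) hd haN hn hD h q hq0 hq1

/-- the numerical statement, as a proposition -/
def N3 : Prop := ∃ C : ℝ, 1 ≤ C ∧ ∀ (n m d nu T : ℕ), 1 ≤ d → nu < n → 1 ≤ T → n ≤ m * d + nu →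
  (∀ D N a : ℕ, 1 ≤ D → a < N → D * (2 * (N + a) + 1) ≤ n → D < m → ∀ q : ℝ, 0 < q → q < 1 →
    q ^ (nu + D * (d - 1)) * (1 - (1 - q ^ N) ^ (a + 1)) ^ (2 * D) ≤
      q ^ ((N - a) * (2 * D)) * (T * ∑ j ∈ Finset.range (2 * D + 1),
        (Nat.choose (2 * m - 2 * D - 1 + j) j : ℝ) * (1 - q ^ d) ^ j)) →
  ∀ η μ t : ℝ, η = 1 - (nu : ℝ) / n → μ = max 1 ((m : ℝ) * d / n) →
    t = (C * μ * (1 + Real.log (μ / η)) / η) ^ (1 / η) →
    Real.exp (n / (C * (t + d) * Real.log t)) ≤ 2 * T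

theorem pf_final_of (hN3 : N3) : ∃ C : ℝ, 1 ≤ C ∧
    ∀ (K : Type) [NormedField K] [CharZero K] (n m d nu T : ℕ), 1 ≤ m → 1 ≤ d → nu < n →
    Apx K n m d nu T →
    ∀ η μ t : ℝ, η = 1 - (nu : ℝ) / n → μ = max 1 ((m : ℝ) * d / n) →
      t = (C * μ * (1 + Real.log (μ / η)) / η) ^ (1 / η) →
      Real.exp (n / (C * (t + d) * Real.log t)) ≤ 2 * T := by
  obtain ⟨C, hC, H⟩ := hN3
  refine ⟨C, hC, ?_⟩
  intro K _ _ n m d nu T hm hd hnu h η μ t h1 h2 h3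
  have hb : 1 ≤ m * d + nu := by
    have : 1 ≤ m * d := Nat.one_le_iff_ne_zero.mpr (Nat.mul_ne_zero (by omega) (by omega))
    omega
  obtain ⟨hT, hnd⟩ := basic_bounds hb h
  exact H n m d nu T hd hnu hT hnd (fun D N a _ haN hn hD q hq0 hq1 =>
    main_real' hd haN hn hD h q hq0 hq1) η μ t h1 h2 h3

theorem n3 : N3 := by
  obtain ⟨C, hC, H⟩ := Helper86.SDET.N3
  exact ⟨C, hC, fun n m d nu T hd hnu hT hnd h => H n m d nu T (by omega) hd hnu hT hnd h⟩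

end Pool.SDF
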