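import Pool.Agent.SDet.ApxGen
import Pool.Agent.Helper59.SAT.Main
import Pool.Agent.Helper91.PT.Base

/-!
Counting satisfying assignments: the main inequality for sums of Pfaffians, border form.
-/

set_option autoImplicit false

namespace Pool.SatCount

open Finset MvPolynomial Pool.SatDet
open scoped ENNReal BigOperators

variable {n k : ℕ}

open Classical in
/-- the `#k`-SAT polynomial: the sum over all assignments of the product of the variables of the
violated clauses -/
noncomputable def satPoly (K : Type) [Field K] (n k : ℕ) : MvPolynomial (Clause n k) K :=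
  ∑ a : Fin n → Bool, ∏ C ∈ Finset.univ.filter (fun C : Clause n k => ¬ Sats a C), X C

theorem degreeOf_satPoly (K : Type) [Field K] (v : Clause n k) :
    (satPoly K n k).degreeOf v ≤ 1 := by
  classical
  rw [degreeOf_le_iff]
  intro u hu
  unfold satPoly at hu
  obtain ⟨a, -, hτ⟩ := Finset.mem_biUnion.mp (support_sum hu)
  have h1 : (∏ C ∈ Finset.univ.filter (fun C : Clause n k => ¬ Sats a C),
      (X C : MvPolynomial (Clause n k) K)) =
      monomial (∑ C ∈ Finset.univ.filter (fun C : Clause n k => ¬ Sats a C),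
        Finsupp.single C 1) 1 := by
    rw [monomial_sum_one]
    rfl
  rw [h1] at hτ
  have h2 := Finset.mem_singleton.mp (support_monomial_subset hτ)
  rw [h2, Finsupp.finsetSum_apply]
  calc ∑ C ∈ Finset.univ.filter (fun C : Clause n k => ¬ Sats a C),
        (Finsupp.single C 1 : Clause n k →₀ ℕ) v
      ≤ ∑ C, (Finsupp.single C 1 : Clause n k →₀ ℕ) v :=
        Finset.sum_le_sum_of_subset (Finset.filter_subset _ _)
    _ = 1 := by simp [Finsupp.single_apply]

/-- the derivative clauses of a choice -/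
noncomputable def yc (hk : 0 < k) {D : ℕ} (hD : D * k ≤ n) (c : Fin (D * k) → Bool) (b : Fin D) :
    Clause n k := vcl (ext' D c) (blk n k b) (card_blk hk hD b b.2)

theorem yc_injective (hk : 0 < k) {D : ℕ} (hD : D * k ≤ n) (c : Fin (D * k) → Bool) :
    Function.Injective (yc hk hD c) := by
  intro b b' h
  have h1 := congrArg supp h
  simp only [yc, supp_vcl] at h1
  exact Fin.ext (blk_injective hk hD b.2 h1)

open Classical in
/-- the substitution without the derivative variables -/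
noncomputable def phi0 (K : Type) [Field K] (n k D : ℕ) (C : Clause n k) :
    MvPolynomial (Clause n k) K :=
  if Dead D C ∨ IsBlk (k := k) D (supp C) then 0 else X C

open Classical in
/-- the substitution of a choice -/
noncomputable def phi (K : Type) [Field K] (hk : 0 < k) {D : ℕ} (hD : D * k ≤ n)
    (c : Fin (D * k) → Bool) (C : Clause n k) : MvPolynomial (Clause n k ⊕ Fin D) K :=
  if Dead D C then 0 else
    if h : ∃ b, yc hk hD c b = C then X (Sum.inr h.choose)
    else if IsBlk (k := k) D (supp C) then 0 else X (Sum.inl C)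

variable (K : Type) [Field K]

theorem phi_yc (hk : 0 < k) {D : ℕ} (hD : D * k ≤ n) (c : Fin (D * k) → Bool) (b : Fin D) :
    phi K hk hD c (yc hk hD c b) = X (Sum.inr b) := by
  classical
  have h0 : ¬ Dead D (yc hk hD c b) := not_dead c _ (not_sats_vcl _ _ _)
  unfold phi
  rw [if_neg h0]
  have h : ∃ b', yc hk hD c b' = yc hk hD c b := ⟨b, rfl⟩
  rw [dif_pos h]
  congr 2
  exact yc_injective hk hD c h.choose_spec

theorem isBlk_yc (hk : 0 < k) {D : ℕ} (hD : D * k ≤ n) (c : Fin (D * k) → Bool) (b : Fin D) :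
    IsBlk (k := k) D (supp (yc hk hD c b)) := ⟨b, by simp only [yc, supp_vcl]⟩

theorem phi_x (hk : 0 < k) {D : ℕ} (hD : D * k ≤ n) (c : Fin (D * k) → Bool) (C : Clause n k)
    (h1 : ¬ Dead D C) (h2 : ¬ IsBlk (k := k) D (supp C)) : phi K hk hD c C = X (Sum.inl C) := by
  classical
  unfold phi
  rw [if_neg h1, dif_neg, if_neg h2]
  rintro ⟨b, rfl⟩
  exact h2 (isBlk_yc hk hD c b)

theorem phi_ne (hk : 0 < k) {D : ℕ} (hD : D * k ≤ n) (c : Fin (D * k) → Bool) (C : Clause n k)
    (h : phi K hk hD c C ≠ 0) : ¬ Dead D C ∧ (IsBlk (k := k) D (supp C) → ∃ b, C = yc hk hD c b) := by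
  classical
  unfold phi at h
  split_ifs at h with h1 h2 h3
  · exact absurd rfl h
  · exact ⟨h1, fun _ => by obtain ⟨b, hb⟩ := h2; exact ⟨b, hb.symm⟩⟩
  · exact absurd rfl h
  · exact ⟨h1, fun h4 => absurd h4 h3⟩

theorem totalDegree_phi0 (D : ℕ) (C : Clause n k) : (phi0 K n k D C).totalDegree ≤ 1 := by
  classical
  unfold phi0
  split_ifs
  · simp
  · simp

theorem totalDegree_phi (hk : 0 < k) {D : ℕ} (hD : D * k ≤ n) (c : Fin (D * k) → Bool)
    (C : Clause n k) : (phi K hk hD c C).totalDegree ≤ 1 := by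
  classical
  unfold phi
  split_ifs <;> simp

theorem aeval_phi (hk : 0 < k) {D : ℕ} (hD : D * k ≤ n) (c : Fin (D * k) → Bool) (C : Clause n k) :
    aeval (Sum.elim X 0 : _ → MvPolynomial (Clause n k) K) (phi K hk hD c C) = phi0 K n k D C := by
  classical
  unfold phi phi0
  by_cases h1 : Dead D C
  · rw [if_pos h1, if_pos (Or.inl h1), map_zero]
  · rw [if_neg h1]
    by_cases h2 : ∃ b, yc hk hD c b = C
    · rw [dif_pos h2, if_pos (Or.inr (by obtain ⟨b, rfl⟩ := h2; exact isBlk_yc hk hD c b)), aeval_X]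
      rfl
    · rw [dif_neg h2]
      by_cases h3 : IsBlk (k := k) D (supp C)
      · rw [if_pos h3, if_pos (Or.inr h3), map_zero]
      · rw [if_neg h3, if_neg (by rintro (h | h); exacts [h1 h, h3 h]), aeval_X]
        rfl

open Classical in
/-- the monomial of a choice -/
noncomputable def gm {D : ℕ} (c : Fin (D * k) → Bool) : MvPolynomial (Clause n k) K :=
  ∏ C ∈ Finset.univ.filter (fun C : Clause n k =>
    ¬ Sats (ext' D c) C ∧ ¬ IsBlk (k := k) D (supp C)), X C

theorem gm_eq {D : ℕ} (c : Fin (D * k) → Bool) :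
    gm (n := n) (k := k) K c =
      monomial (Finsupp.equivFunOnFinite.symm (Mm (n := n) (k := k) D c)) 1 := by
  classical
  have h1 : gm (n := n) (k := k) K c = monomial (∑ C ∈ Finset.univ.filter (fun C : Clause n k =>
      ¬ Sats (ext' D c) C ∧ ¬ IsBlk (k := k) D (supp C)), Finsupp.single C 1) 1 := by
    unfold gm
    rw [monomial_sum_one]
    rfl
  have h2 : (∑ C ∈ Finset.univ.filter (fun C : Clause n k =>
      ¬ Sats (ext' D c) C ∧ ¬ IsBlk (k := k) D (supp C)), Finsupp.single C 1 : Clause n k →₀ ℕ) =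
      Finsupp.equivFunOnFinite.symm (Mm (n := n) (k := k) D c) := by
    ext x
    rw [Finsupp.finsetSum_apply]
    simp only [Finsupp.single_apply, Finset.sum_ite_eq', Finset.mem_filter, Finset.mem_univ,
      true_and, Finsupp.equivFunOnFinite_symm_apply_apply]
    unfold Mm
    congr 1
  rw [h1, h2]

/-- only one assignment survives the substitution -/
theorem aeval_satPoly (hk : 0 < k) (hkn : k ≤ n) {D : ℕ} (hD : D * k ≤ n)
    (c : Fin (D * k) → Bool) :
    aeval (phi K hk hD c) (satPoly K n k) =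
      rename Sum.inl (gm K c) * ∏ b : Fin D, X (Sum.inr b) := by
  classical
  unfold satPoly
  rw [map_sum, Finset.sum_eq_single (ext' D c)]
  · rw [map_prod]
    simp only [aeval_X]
    rw [← Finset.prod_filter_mul_prod_filter_not (Finset.univ.filter
      (fun C : Clause n k => ¬ Sats (ext' D c) C)) (fun C => ¬ IsBlk (k := k) D (supp C))]
    congr 1
    · unfold gm
      rw [map_prod, Finset.filter_filter]
      refine Finset.prod_congr rfl fun C hC => ?_
      obtain ⟨-, h1, h2⟩ := Finset.mem_filter.1 hC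
      rw [phi_x K hk hD c C (not_dead c C h1) h2, rename_X]
    · symm
      refine Finset.prod_bij (fun b _ => yc hk hD c b) ?_ ?_ ?_ ?_
      · intro b _
        rw [Finset.mem_filter, Finset.mem_filter]
        exact ⟨⟨Finset.mem_univ _, not_sats_vcl _ _ _⟩, not_not.2 (isBlk_yc hk hD c b)⟩
      · intro b _ b' _ h
        exact yc_injective hk hD c h
      · intro C hC
        rw [Finset.mem_filter, Finset.mem_filter, not_not] at hC
        obtain ⟨⟨-, h1⟩, b, hb⟩ := hC
        refine ⟨b, Finset.mem_univ _, ?_⟩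
        rw [eq_vcl _ C h1]
        simp only [yc]
        congr 1
        exact hb.symm
      · intro b _
        rw [phi_yc]
  · intro a _ ha
    rw [map_prod]
    simp only [aeval_X]
    by_contra hne0
    have hne := Finset.prod_ne_zero_iff.1 hne0
    apply ha
    refine forced hk hkn hD c (Finset.univ.filter fun C : Clause n k => ¬ Sats a C) a
      (fun C hC => by simp [hC]) ?_ ?_
    · intro C hC
      rw [Ne, kp_none]
      exact (phi_ne K hk hD c C (hne C hC)).1
    · intro C hC z hz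
      rw [kp_inr] at hz
      obtain ⟨rfl, -, h2⟩ := hz
      exact (phi_ne K hk hD c C (hne C hC)).2 h2
  · intro h
    exact absurd (Finset.mem_univ _) h

theorem coeff_gm (hk : 0 < k) (hkn : k ≤ n) {D : ℕ} (hD : D * k ≤ n)
    (c : Fin (D * k) → Bool) (u : Clause n k →₀ ℕ) :
    coeff u (gm K c) = coeff (u.embDomain ⟨Sum.inl, Sum.inl_injective⟩ +
      ∑ b : Fin D, Finsupp.single (Sum.inr b) 1) (aeval (phi K hk hD c) (satPoly K n k)) := by
  classical
  rw [aeval_satPoly K hk hkn hD c]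
  have h2 : (∏ i : Fin D, X (Sum.inr i) : MvPolynomial (Clause n k ⊕ Fin D) K) =
      monomial (∑ b : Fin D, Finsupp.single (Sum.inr b) 1) 1 := by
    rw [monomial_sum_one]
    rfl
  rw [h2, coeff_mul_monomial, mul_one]
  exact (coeff_rename_embDomain (R := K)
    (⟨Sum.inl, Sum.inl_injective⟩ : Clause n k ↪ Clause n k ⊕ Fin D) (gm K c) u).symm

/-- the main inequality in `ENNReal` -/
theorem main_ennreal (K : Type) [NormedField K] [CharZero K] {m m' d nu T D : ℕ} (hm1 : 1 ≤ m) (hm : m ≤ m')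
    (hk : 0 < k) (hkn : k ≤ n) (hD : D * k ≤ n) (hd : 1 ≤ d) (hDm : D < m')
    (h : Pool.SDG.Apx K (satPoly K n k) m d nu T) (Q : ℝ≥0∞) (hQ : Q < 1) (hQ0 : Q ≠ 0)
    (Z : ℝ≥0∞) (hZ0 : Z ≠ 0) (hZt : Z ≠ ∞)
    (hZ : ∀ c : Fin (D * k) → Bool, ∑ c' : Fin (D * k) → Bool,
      Q ^ (∑ x : Clause n k, (Mm D c' x - Mm D c x)) ≤ Z) :
    Q ^ (nu + D * (d - 1)) * (Fintype.card (Fin (D * k) → Bool) : ℝ≥0∞) ≤
      Z * (T * ∑ j ∈ Finset.range (2 * D + 1),
        (Nat.choose (2 * m' - 2 * D - 1 + j) j : ℝ≥0∞) * (1 - Q ^ d) ^ j) := by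
  classical
  set B := #((Finset.powersetCard k (Finset.univ : Finset (Fin n))).filter
    fun s => ¬ IsBlk (k := k) D s) with hBdef
  have hdeg : ∀ v, (satPoly K n k).degreeOf v ≤ m * d + nu := by
    intro v
    have h1 := degreeOf_satPoly (n := n) (k := k) K v
    have h2 : 1 ≤ m * d := Nat.one_le_iff_ne_zero.mpr (Nat.mul_ne_zero (by omega) (by omega))
    omega
  have hgen := Pool.SDG.main_gen (satPoly K n k) hm hdeg hd hDm h (phi0 K n k D) (phi K hk hD)
    (totalDegree_phi0 K D) (totalDegree_phi K hk hD) (aeval_phi K hk hD) (gm K)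
    (coeff_gm K hk hkn hD) Q hQ
  have hlow := Pool.PTest.low_series' (gm (n := n) (k := k) K (D := D))
    (fun c => Finsupp.equivFunOnFinite.symm (Mm (n := n) (k := k) D c)) B
    (by
      intro c
      rw [Finsupp.degree_eq_sum]
      exact sum_Mm D c)
    (by
      intro c U hU
      rw [gm_eq, coeff_monomial] at hU
      split_ifs at hU with h1
      · exact h1.le
      · exact absurd rfl hU)
    (by
      intro c
      rw [gm_eq, coeff_monomial, if_pos rfl]
      exact one_ne_zero) Q hQ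
  have hsm := series_sm (fun c : Fin (D * k) → Bool => Mm (n := n) (k := k) D c) B
    (fun c => sum_Mm D c) Q hQ hQ0 Z hZ0 hZt hZ
  have hQt : Q ≠ ∞ := (hQ.trans_le le_top).ne
  set Se := (1 - Q) ^ (Fintype.card (Clause n k) + 1) *
      ∑' l, Q ^ l * (Module.finrank K (Pool.SDD.Wl (gm (n := n) (k := k) K (D := D)) l) : ℝ≥0∞)
    with hSe
  have h3 : (Fintype.card (Fin (D * k) → Bool) : ℝ≥0∞) * Q ^ B ≤ (Z * Se) * Q ^ B := by
    refine hsm.trans ?_
    calc Z * ((1 - Q) ^ Fintype.card (Clause n k) * ∑' u : Clause n k → ℕ,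
          (if ∃ c : Fin (D * k) → Bool, ∀ x, Mm D c x ≤ u x then Q ^ (∑ x, u x) else 0))
        ≤ Z * (Q ^ B * Se) := mul_le_mul_right hlow _
      _ = _ := by ring
  have h4 : (Fintype.card (Fin (D * k) → Bool) : ℝ≥0∞) ≤ Z * Se :=
    (ENNReal.mul_le_mul_iff_left (pow_ne_zero _ hQ0) (ENNReal.pow_ne_top hQt)).1 h3
  calc Q ^ (nu + D * (d - 1)) * (Fintype.card (Fin (D * k) → Bool) : ℝ≥0∞)
      ≤ Q ^ (nu + D * (d - 1)) * (Z * Se) := mul_le_mul_right h4 _
    _ = Z * (Q ^ (nu + D * (d - 1)) * Se) := by ring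
    _ ≤ _ := mul_le_mul_right hgen _

/-- the main inequality -/
theorem main_real (K : Type) [NormedField K] [CharZero K] {m m' d nu T D : ℕ} (hm1 : 1 ≤ m) (hm : m ≤ m')
    (hk : 0 < k) (hkn : k ≤ n) (hD : D * k ≤ n) (hd : 1 ≤ d) (hDm : D < m')
    (h : Pool.SDG.Apx K (satPoly K n k) m d nu T) (q : ℝ) (hq0 : 0 < q) (hq1 : q < 1) :
    q ^ (nu + D * (d - 1)) * 2 ^ (D * k) ≤
      (∑ j ∈ range (D * k + 1),
        ((D * k).choose j : ℝ) * q ^ (n.choose k - (n - j).choose k - j)) *
      (T * ∑ j ∈ Finset.range (2 * D + 1),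
        (Nat.choose (2 * m' - 2 * D - 1 + j) j : ℝ) * (1 - q ^ d) ^ j) := by
  classical
  set Q : ℝ≥0∞ := ENNReal.ofReal q with hQdef
  have hQ1 : Q < 1 := by
    rw [hQdef, ENNReal.ofReal_lt_one]
    exact hq1
  have hQ0 : Q ≠ 0 := (ENNReal.ofReal_pos.2 hq0).ne'
  set Z : ℝ := ∑ j ∈ range (D * k + 1),
        ((D * k).choose j : ℝ) * q ^ (n.choose k - (n - j).choose k - j) with hZdef
  have hZ0 : 0 < Z := by
    have h0 : (0 : ℝ) < ((D * k).choose 0 : ℝ) * q ^ (n.choose k - (n - 0).choose k - 0) := by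
      simp
    exact lt_of_lt_of_le h0 (Finset.single_le_sum
      (f := fun j => ((D * k).choose j : ℝ) * q ^ (n.choose k - (n - j).choose k - j))
      (fun j _ => by positivity) (Finset.mem_range.2 (Nat.succ_pos _)))
  have hpw : ∀ i : ℕ, Q ^ i = ENNReal.ofReal (q ^ i) := fun i => by
    rw [hQdef, ENNReal.ofReal_pow hq0.le]
  have key := main_ennreal (n := n) (k := k) K hm1 hm hk hkn hD hd hDm h Q hQ1 hQ0 (ENNReal.ofReal Z)
    (ENNReal.ofReal_pos.2 hZ0).ne' ENNReal.ofReal_ne_top (by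
      intro c
      have h4 : ∑ c' : Fin (D * k) → Bool, Q ^ (∑ x : Clause n k, (Mm D c' x - Mm D c x)) =
          ENNReal.ofReal (∑ c' : Fin (D * k) → Bool,
            q ^ (∑ x : Clause n k, (Mm D c' x - Mm D c x))) := by
        rw [ENNReal.ofReal_sum_of_nonneg (fun j _ => by positivity)]
        exact Finset.sum_congr rfl fun c' _ => hpw _
      rw [h4]
      apply ENNReal.ofReal_le_ofReal
      rw [hZdef, ← sum_dif c (fun j => q ^ (n.choose k - (n - j).choose k - j))]
      refine Finset.sum_le_sum fun c' _ => ?_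
      have h1 := diff_ge (n := n) D c c'
      rw [card_dif D hD] at h1
      exact pow_le_pow_of_le_one hq0.le hq1.le h1)
  have h1q : ∀ i : ℕ, 0 ≤ 1 - q ^ i := fun i => by
    have := pow_le_one₀ (n := i) hq0.le hq1.le
    linarith
  have e2 : ∑ j ∈ Finset.range (2 * D + 1),
        (Nat.choose (2 * m' - 2 * D - 1 + j) j : ℝ≥0∞) * (1 - Q ^ d) ^ j =
      ENNReal.ofReal (∑ j ∈ Finset.range (2 * D + 1),
        (Nat.choose (2 * m' - 2 * D - 1 + j) j : ℝ) * (1 - q ^ d) ^ j) := by
    rw [ENNReal.ofReal_sum_of_nonneg (fun j _ => mul_nonneg (by positivity)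
      (pow_nonneg (h1q d) _))]
    apply Finset.sum_congr rfl
    intro j _
    have e0 : (1 : ℝ≥0∞) - Q ^ d = ENNReal.ofReal (1 - q ^ d) := by
      rw [hpw, ENNReal.ofReal_sub _ (by positivity), ENNReal.ofReal_one]
    rw [e0, ENNReal.ofReal_mul (by positivity), ENNReal.ofReal_pow (h1q d), ENNReal.ofReal_natCast]
  have hS : 0 ≤ ∑ j ∈ Finset.range (2 * D + 1),
        (Nat.choose (2 * m' - 2 * D - 1 + j) j : ℝ) * (1 - q ^ d) ^ j :=
    Finset.sum_nonneg (fun j _ => mul_nonneg (by positivity) (pow_nonneg (h1q d) _))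
  have e3 : (Fintype.card (Fin (D * k) → Bool) : ℝ≥0∞) = ENNReal.ofReal (2 ^ (D * k)) := by
    rw [ENNReal.ofReal_pow (by norm_num)]
    simp
  rw [e2, e3, hpw, ← ENNReal.ofReal_natCast T, ← ENNReal.ofReal_mul (by positivity),
    ← ENNReal.ofReal_mul (by positivity), ← ENNReal.ofReal_mul hZ0.le] at key
  exact (ENNReal.ofReal_le_ofReal_iff (by positivity)).1 key

end Pool.SatCount
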