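import Pool.Agent.SDet.Defs
import Pool.Agent.Helper90.SD.U1
import Pool.Agent.Helper41.SDet.U2
import Pool.Agent.Helper67.SDet.Red
import Pool.Agent.Helper91.SD.Num
import Pool.Agent.Helper55.SD.SideL

open MvPolynomial Finset
open scoped BigOperators ENNReal

namespace Pool.SDL

variable {K : Type} [Field K]

/-- exponent vectors of bounded degree form a finite set -/
theorem finite_degree_le (σ : Type) [Fintype σ] (l : ℕ) :
    Set.Finite {μ : σ →₀ ℕ | μ.degree ≤ l} := by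
  classical
  have h : {μ : σ →₀ ℕ | μ.degree ≤ l} ⊆
      Set.range (fun f : σ → Fin (l + 1) => Finsupp.equivFunOnFinite.symm fun i => (f i : ℕ)) := by
    intro μ hμ
    have hi : ∀ i, μ i < l + 1 := by
      intro i
      have h1 : μ i ≤ μ.degree := Finsupp.le_degree i μ
      have h2 : μ.degree ≤ l := hμ
      omega
    refine ⟨fun i => ⟨μ i, hi i⟩, ?_⟩
    ext i
    simp
  exact (Set.finite_range _).subset h

instance Ml_finite {σ : Type} [Fintype σ] {m : ℕ} (A : Matrix (Fin m) (Fin m) (MvPolynomial σ K))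
    (k l : ℕ) : Module.Finite K (Ml A k l) := by
  classical
  unfold Ml
  apply Module.Finite.span_of_finite
  have h1 := finite_degree_le (σ ⊕ (Fin m × Fin m)) l
  have h2 : Set.Finite ((fun x : ((σ ⊕ (Fin m × Fin m)) →₀ ℕ) × (Fin k → Fin m) × (Fin k → Fin m) =>
      monomial x.1 (1:K) * rename Sum.inl (A.submatrix x.2.1 x.2.2).det) ''
      ({μ | μ.degree ≤ l} ×ˢ (Set.univ : Set ((Fin k → Fin m) × (Fin k → Fin m))))) :=
    (h1.prod Set.finite_univ).image _
  apply h2.subset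
  rintro f ⟨μ, r, c, hμ, -, -, rfl⟩
  exact ⟨(μ, r, c), ⟨hμ, Set.mem_univ _⟩, rfl⟩

theorem Vl_le_iSup {B : Type} [Fintype B] {σ κ : Type} {m t k l : ℕ}
    (g : κ → MvPolynomial σ K)
    (L : Fin t → Matrix (Fin m) (Fin m) (MvPolynomial (B × σ) K))
    (hL : ∀ kk : B → κ, ∏ b, rename (fun v => (b, v)) (g (kk b)) ∈ ⨆ i, detSpan (L i) k) :
    Vl B (Fin m × Fin m) g l ≤ ⨆ i, Ml (L i) k l := by
  classical
  unfold Vl
  rw [Submodule.span_le]
  rintro f ⟨μ, kk, hμ, rfl⟩
  have h1 : (∏ b, rename (fun v => (Sum.inl (b, v) : (B × σ) ⊕ (Fin m × Fin m))) (g (kk b))) =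
      rename Sum.inl (∏ b, rename (fun v => (b, v)) (g (kk b))) := by
    rw [map_prod]
    apply Finset.prod_congr rfl
    intro b _
    rw [rename_rename]
    rfl
  rw [h1]
  set T : MvPolynomial (B × σ) K →ₗ[K] MvPolynomial ((B × σ) ⊕ (Fin m × Fin m)) K :=
    (LinearMap.mulLeft K (monomial μ (1:K))).comp
      (rename (Sum.inl : (B × σ) → (B × σ) ⊕ (Fin m × Fin m))).toLinearMap with hT
  have h2 : T (∏ b, rename (fun v => (b, v)) (g (kk b))) ∈
      Submodule.map T (⨆ i, detSpan (L i) k) := Submodule.mem_map_of_mem (hL kk)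
  rw [Submodule.map_iSup] at h2
  have h3 : (⨆ i, Submodule.map T (detSpan (L i) k)) ≤ ⨆ i, Ml (L i) k l := by
    apply iSup_mono
    intro i
    unfold detSpan
    rw [Submodule.map_span, Submodule.span_le]
    rintro _ ⟨f, ⟨r, c, hr, hc, rfl⟩, rfl⟩
    apply Submodule.subset_span
    exact ⟨μ, r, c, hμ, hr, hc, rfl⟩
  exact h3 h2

theorem finrank_iSup_le {V : Type} [AddCommGroup V] [Module K V] {t : ℕ}
    (W : Fin t → Submodule K V) [∀ i, Module.Finite K (W i)] :
    Module.finrank K (⨆ i, W i : Submodule K V) ≤ ∑ i, Module.finrank K (W i) := by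
  classical
  have key : ∀ s : Finset (Fin t), Module.Finite K (s.sup W : Submodule K V) ∧
      Module.finrank K (s.sup W : Submodule K V) ≤ ∑ i ∈ s, Module.finrank K (W i) := by
    intro s
    induction s using Finset.induction_on with
    | empty => 
      simp only [Finset.sum_empty]
      exact ⟨by rw [Finset.sup_empty]; infer_instance, by simp⟩
    | insert a s ha ih =>
      obtain ⟨ih1, ih2⟩ := ih
      rw [Finset.sup_insert, Finset.sum_insert ha]
      have := ih1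
      refine ⟨inferInstance, ?_⟩
      have := Submodule.finrank_add_le_finrank_add_finrank (W a) (s.sup W)
      omega
  have h := (key Finset.univ).2
  rwa [Finset.sup_univ_eq_iSup] at h

theorem finrank_Vl_le [Infinite K] {B : Type} [Fintype B] {σ κ : Type} [Fintype σ] {m t k l : ℕ} (hkm : k ≤ m)
    (g : κ → MvPolynomial σ K)
    (L : Fin t → Matrix (Fin m) (Fin m) (MvPolynomial (B × σ) K))
    (hA : ∀ i p q, (L i p q).totalDegree ≤ 1)
    (hL : ∀ kk : B → κ, ∏ b, rename (fun v => (b, v)) (g (kk b)) ∈ ⨆ i, detSpan (L i) k) :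
    Module.finrank K (Vl B (Fin m × Fin m) g l) ≤ t *
      ∑ f : Fin k ↪o Fin m, ∑ g : Fin k ↪o Fin m,
        Nat.multichoose (Fintype.card (B × σ) + m * m + 1 - rho f - rho g) l := by
  classical
  have hfin : Module.Finite K (⨆ i, Ml (L i) k l :
      Submodule K (MvPolynomial ((B × σ) ⊕ (Fin m × Fin m)) K)) := inferInstance
  calc Module.finrank K (Vl B (Fin m × Fin m) g l)
      ≤ Module.finrank K (⨆ i, Ml (L i) k l :
        Submodule K (MvPolynomial ((B × σ) ⊕ (Fin m × Fin m)) K)) :=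
        Submodule.finrank_mono (Vl_le_iSup g L hL)
    _ ≤ ∑ i, Module.finrank K (Ml (L i) k l) := finrank_iSup_le _
    _ ≤ ∑ _i : Fin t, ∑ f : Fin k ↪o Fin m, ∑ g : Fin k ↪o Fin m,
        Nat.multichoose (Fintype.card (B × σ) + m * m + 1 - rho f - rho g) l := by
        apply Finset.sum_le_sum
        intro i _
        exact (Pool.Agent.Helper41.SD.U2_affine (L i) (hA i)).trans Pool.Agent.Helper90.SD.U1_generic
    _ = _ := by simp

theorem main_ennreal [CharZero K] {n m t D N a : ℕ} (s : Fin t → ℕ) (hs : ∀ i, s i ≤ m)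
    (A : ∀ i, Matrix (Fin (s i)) (Fin (s i)) (MvPolynomial (Fin n × Fin n) K))
    (hA : ∀ i p q, (A i p q).totalDegree ≤ 1)
    (h : (Matrix.of fun i j => (X (i, j) : MvPolynomial (Fin n × Fin n) K)).permanent =
      ∑ i, (A i).det)
    (hnm : n ≤ m) (hD : 1 ≤ D) (haN : a < N) (hn : D * (2 * (N + a) + 1) ≤ n)
    (Q : ℝ≥0∞) (hQ : Q < 1) :
    (1 - (1 - Q ^ N) ^ (a + 1)) ^ (2 * D) ≤
      Q ^ ((N - a) * (2 * D)) * (t * 
        (∑ j ∈ Finset.range (D + 1), (Nat.choose (m - D - 1 + j) j : ℝ≥0∞) * (1 - Q) ^ j) ^ 2) := by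
  classical
  have : Infinite K := CharZero.infinite K
  have hDm : D < m := by nlinarith [Nat.mul_le_mul_left D (show 3 ≤ 2 * (N + a) + 1 by omega)]
  obtain ⟨L, hL1, hL2⟩ := R_reduction s hs A hA h hn hDm.le
  have hk1 : 1 ≤ m - D := by omega
  have hkm : m - D ≤ m := Nat.sub_le _ _
  have hcard : Fintype.card (Fin D ⊕ Fin D) = 2 * D := by simp; ring
  have hmain := sideL K (Fin D ⊕ Fin D) (Fin m × Fin m) N a haN Q hQ
  rw [hcard] at hmain
  refine hmain.trans (mul_le_mul' le_rfl ?_)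
  have hc2 : Fintype.card (((Fin D ⊕ Fin D) × Option (Fin N)) ⊕ (Fin m × Fin m)) + 1 =
      Fintype.card ((Fin D ⊕ Fin D) × Option (Fin N)) + m * m + 1 := by
    simp [Fintype.card_sum, Fintype.card_prod]
  rw [hc2]
  set c0 := Fintype.card ((Fin D ⊕ Fin D) × Option (Fin N)) with hc0
  set cnt : ℕ → ℕ := fun l => ∑ f : Fin (m - D) ↪o Fin m, ∑ g : Fin (m - D) ↪o Fin m,
        Nat.multichoose (c0 + m * m + 1 - rho f - rho g) l with hcnt
  have h1 : ∀ l, (Module.finrank K (Vl (Fin D ⊕ Fin D) (Fin m × Fin m) (bp K N a) l) : ℝ≥0∞) ≤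
      t * (cnt l : ℝ≥0∞) := by
    intro l
    have := finrank_Vl_le (K := K) (l := l) hkm (bp K N a) L hL1 hL2
    calc (Module.finrank K (Vl (Fin D ⊕ Fin D) (Fin m × Fin m) (bp K N a) l) : ℝ≥0∞)
        ≤ ((t * cnt l : ℕ) : ℝ≥0∞) := by exact_mod_cast this
      _ = t * (cnt l : ℝ≥0∞) := by push_cast; ring
  calc (1 - Q) ^ (c0 + m * m + 1) * ∑' l, Q ^ l *
        (Module.finrank K (Vl (Fin D ⊕ Fin D) (Fin m × Fin m) (bp K N a) l) : ℝ≥0∞)
      ≤ (1 - Q) ^ (c0 + m * m + 1) * ∑' l, Q ^ l * (t * (cnt l : ℝ≥0∞)) := by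
        gcongr with l
        exact h1 l
    _ = t * ((1 - Q) ^ (c0 + m * m + 1) * ∑' l, Q ^ l * (cnt l : ℝ≥0∞)) := by
        have : ∀ l, Q ^ l * (t * (cnt l : ℝ≥0∞)) = t * (Q ^ l * (cnt l : ℝ≥0∞)) := by
          intro l; ring
        simp_rw [this]
        rw [ENNReal.tsum_mul_left]
        ring
    _ ≤ t * (∑ f : Fin (m - D) ↪o Fin m, (1 - Q) ^ rho f) ^ 2 := by
        gcongr
        exact Pool.Agent.Helper90.SD.U3_series Q hQ
    _ ≤ _ := by
        have e1 : m - (m - D) = D := by omega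
        have e2 := Pool.Agent.Helper90.SD.U3_rho (m := m) hk1 (1 - Q)
        rw [e1] at e2
        gcongr

end Pool.SDL
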