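import Pool.Agent.SDet.BorderGen
import Pool.Agent.Helper69.SDD.R2
import Pool.Agent.SDD.PfInst
import Pool.Agent.PF.Grid

/-!
Approximation of the values of a fixed polynomial at small natural points by sums of products of
a polynomial of small degree and a Pfaffian: the general inequality.
-/

open MvPolynomial Finset Filter Topology
open scoped BigOperators ENNReal

namespace Pool.SDG

/-- the values of `F` at points with entries at most `m d + nu` are approximated to any precision
by sums of `T` products of a polynomial of degree at most `nu` and a Pfaffian of order at most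
`2 m`, with entries of degree at most `d` -/
def Apx (K : Type) [NormedField K] {Z : Type} (F : MvPolynomial Z K) (m d nu T : ℕ) : Prop :=
  ∀ ε : ℝ, 0 < ε → ∃ (s : Fin T → ℕ) (P : Fin T → MvPolynomial Z K)
    (A : ∀ i, Matrix (Fin (2 * s i)) (Fin (2 * s i)) (MvPolynomial Z K)),
    (∀ i, s i ≤ m) ∧ (∀ i, (P i).totalDegree ≤ nu) ∧ (∀ i p q, (A i p q).totalDegree ≤ d) ∧
    ∀ M : Z → ℕ, (∀ v, M v ≤ m * d + nu) →
      ‖eval (fun v => (M v : K)) F - ∑ i, eval (fun v => (M v : K)) (P i) *
        Pool.PF.pf (s i) ((A i).map (eval fun v => (M v : K)))‖ < ε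

/-- exponents bounded in every variable -/
lemma exists_box (σ : Type) [Finite σ] (b : ℕ) :
    ∃ S : Finset (σ →₀ ℕ), ∀ u : σ →₀ ℕ, (∀ v, u v ≤ b) → u ∈ S := by
  classical
  have := Fintype.ofFinite σ
  refine ⟨(Finset.univ : Finset (σ → Fin (b + 1))).image
    (fun g => Finsupp.equivFunOnFinite.symm fun v => (g v : ℕ)), fun u hu => ?_⟩
  refine Finset.mem_image.mpr ⟨fun v => ⟨u v, Nat.lt_succ_of_le (hu v)⟩, Finset.mem_univ _, ?_⟩
  ext v
  simp

/-- sequences from the approximation hypothesis -/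
theorem exists_seq {K : Type} [NormedField K] [CharZero K] {Z : Type} [Fintype Z]
    (F : MvPolynomial Z K) {m m' d nu T : ℕ} (hm : m ≤ m') (hF : ∀ v, F.degreeOf v ≤ m * d + nu)
    (h : Apx K F m d nu T) :
    ∃ (B : ℕ → Fin T → Pool.PF.Cell (2 * m') → MvPolynomial Z K)
      (f : ℕ → Fin T → MvPolynomial Z K) (S : Finset (Z →₀ ℕ)),
      (∀ r t c, (B r t c).totalDegree ≤ d) ∧
      (∀ r t, f r t ∈ Pool.SDD.Wl (fun j => aeval (B r t) (Pool.PF.pfam K (2 * m') m' j)) nu) ∧
      (∀ r t, (f r t).totalDegree ≤ m * d + nu) ∧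
      (∀ r, (∑ t, f r t).support ⊆ S) ∧
      ∀ u, Tendsto (fun r => coeff u (∑ t, f r t)) atTop (𝓝 (coeff u F)) := by
  classical
  choose s P A hs hP hA hM using fun r : ℕ => h (1 / ((r : ℝ) + 1)) (by positivity)
  choose B hB1 hB2 using fun (r : ℕ) (t : Fin T) =>
    Pool.PF.exists_aeval ((hs r t).trans hm) d (A r t) (hA r t)
  obtain ⟨S, hS⟩ := exists_box Z (m * d + nu)
  have hdeg : ∀ r t, (P r t * Pool.PF.pf (s r t) (A r t)).totalDegree ≤ m * d + nu := by
    intro r t
    refine (totalDegree_mul _ _).trans ?_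
    have h1 := (Pool.PF.totalDegree_pf_le d (s r t) (A r t) (hA r t)).trans
      (Nat.mul_le_mul_right d (hs r t))
    have h2 := hP r t
    omega
  have hsumdeg : ∀ r, (∑ t, P r t * Pool.PF.pf (s r t) (A r t)).totalDegree ≤ m * d + nu := by
    intro r
    exact (totalDegree_finsetSum _ _).trans (Finset.sup_le fun t _ => hdeg r t)
  refine ⟨B, fun r t => P r t * Pool.PF.pf (s r t) (A r t), S, hB1, ?_, hdeg, ?_, ?_⟩
  · intro r t
    have h0 : aeval (B r t) (Pool.PF.pfam K (2 * m') m' (RelEmbedding.refl _)) ∈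
        Pool.SDD.Wl (fun j => aeval (B r t) (Pool.PF.pfam K (2 * m') m' j)) 0 :=
      Submodule.subset_span ⟨0, RelEmbedding.refl _, by simp, by simp⟩
    have h1 := Pool.SDD.mul_mem_Wl (hP r t) h0
    rw [Nat.add_zero] at h1
    change P r t * Pool.PF.pf (s r t) (A r t) ∈ _
    rw [hB2 r t]
    exact h1
  · intro r u hu
    apply hS
    intro v
    have h1 := le_totalDegree hu
    exact ((Finsupp.le_degree v u).trans (le_of_eq rfl)).trans (h1.trans (hsumdeg r))
  · refine Pool.PF.grid_tendsto (m * d + nu)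
      (fun r => ∑ t, P r t * Pool.PF.pf (s r t) (A r t)) F ?_ hF ?_
    · intro r v
      exact (degreeOf_le_totalDegree _ _).trans (hsumdeg r)
    · intro M hMb
      rw [tendsto_iff_norm_sub_tendsto_zero]
      have h1 : ∀ r : ℕ, ‖eval (fun v => (M v : K))
          (∑ t, P r t * Pool.PF.pf (s r t) (A r t)) - eval (fun v => (M v : K)) F‖ ≤
          1 / ((r : ℝ) + 1) := by
        intro r
        rw [norm_sub_rev, map_sum]
        have h2 := hM r M hMb
        have h3 : ∀ t, eval (fun v => (M v : K)) (P r t * Pool.PF.pf (s r t) (A r t)) =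
            eval (fun v => (M v : K)) (P r t) *
              Pool.PF.pf (s r t) ((A r t).map (eval fun v => (M v : K))) := by
          intro t
          rw [map_mul, Pool.PF.eval_pf]
        rw [Finset.sum_congr rfl fun t _ => h3 t]
        exact h2.le
      exact squeeze_zero (fun r => norm_nonneg _) h1 tendsto_one_div_add_atTop_nhds_zero_nat

/-- at least one summand, and the degree is large enough -/
theorem basic_bounds {K : Type} [NormedField K] [CharZero K] {Z : Type} [Fintype Z]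
    (F : MvPolynomial Z K) {m d nu T : ℕ} (hF : ∀ v, F.degreeOf v ≤ m * d + nu)
    (h : Apx K F m d nu T) (u : Z →₀ ℕ) (hu : coeff u F ≠ 0) :
    1 ≤ T ∧ u.degree ≤ m * d + nu := by
  classical
  obtain ⟨B, f, S, -, -, hdeg, -, hconv⟩ := exists_seq F le_rfl hF h
  constructor
  · by_contra hT
    have hT0 : T = 0 := by omega
    subst hT0
    have h1 := hconv u
    simp only [Finset.univ_eq_empty, Finset.sum_empty, coeff_zero] at h1
    exact hu (tendsto_nhds_unique tendsto_const_nhds h1).symm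
  · by_contra hn
    have h1 := hconv u
    have h2 : ∀ r, coeff u (∑ t, f r t) = 0 := by
      intro r
      by_contra hne
      have h3 := le_totalDegree (mem_support_iff.mpr hne)
      have h4 : (∑ t, f r t).totalDegree ≤ m * d + nu :=
        (totalDegree_finsetSum _ _).trans (Finset.sup_le fun t _ => hdeg r t)
      have h5 : (u.sum fun _ e => e) = u.degree := rfl
      rw [h5] at h3
      omega
    simp only [h2] at h1
    exact hu (tendsto_nhds_unique tendsto_const_nhds h1).symm

/-- the general inequality -/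
theorem main_gen {K : Type} [NormedField K] [CharZero K] {Z Y0 C : Type} [Fintype Z] [Fintype Y0]
    [Finite C] (F : MvPolynomial Z K) {m m' d nu T D : ℕ} (hm : m ≤ m')
    (hF : ∀ v, F.degreeOf v ≤ m * d + nu) (hd : 1 ≤ d) (hD : D < m') (h : Apx K F m d nu T)
    (φ0 : Z → MvPolynomial Y0 K) (φ : C → Z → MvPolynomial (Y0 ⊕ Fin D) K)
    (hφ0 : ∀ x, (φ0 x).totalDegree ≤ 1)
    (hφ1 : ∀ c x, (φ c x).totalDegree ≤ 1)
    (hφ2 : ∀ c x, aeval (Sum.elim X 0 : _ → MvPolynomial Y0 K) (φ c x) = φ0 x)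
    (g : C → MvPolynomial Y0 K)
    (hg : ∀ c u, coeff u (g c) = coeff (u.embDomain ⟨Sum.inl, Sum.inl_injective⟩ +
          ∑ b : Fin D, Finsupp.single (Sum.inr b) 1) (aeval (φ c) F))
    (Q : ℝ≥0∞) (hQ : Q < 1) :
    Q ^ (nu + D * (d - 1)) * ((1 - Q) ^ (Fintype.card Y0 + 1) *
      ∑' l, Q ^ l * (Module.finrank K (Pool.SDD.Wl g l) : ℝ≥0∞)) ≤
      T * ∑ j ∈ Finset.range (2 * D + 1),
        (Nat.choose (2 * m' - 2 * D - 1 + j) j : ℝ≥0∞) * (1 - Q ^ d) ^ j := by
  classical
  obtain ⟨B, f, S, hB, hf, hdeg, hS, hconv⟩ := exists_seq F hm hF h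
  obtain ⟨k, hk⟩ : ∃ k, m' = k + D := ⟨m' - D, by omega⟩
  have hk1 : 1 ≤ k := by omega
  have hf' : ∀ r t, f r t ∈
      Pool.SDD.Wl (fun j => aeval (B r t) (Pool.PF.pfam K (2 * m') (k + D) j)) nu := by
    intro r t
    have := hf r t
    rw [← hk]
    exact this
  have key := Pool.SDD.border_ineq (Pool.PF.pfam K (2 * m') (k + D))
    (Pool.PF.pfam K (2 * m') k) φ0 φ hφ0 hφ1 hφ2
    (fun A hA F hF => Pool.SDD.R2 (Pool.PF.pfam K (2 * m')) Pool.PF.pfam_tower k D nu d hd A hA F hF)
    Q _ (fun A' hA' => Pool.SDD.pf_hU hk1 (by omega) hd A' hA' Q hQ) B hB f hf' S hS F hconv g hg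
  rw [show 2 * (m' - k) + 1 = 2 * D + 1 by omega, show 2 * k - 1 = 2 * m' - 2 * D - 1 by omega] at key
  exact key

end Pool.SDG
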