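import Mathlib

/-!
Semicontinuity of the dimension of the span of finitely many polynomials, in a topological field.
-/

open MvPolynomial Finset Filter Topology
open scoped BigOperators

namespace Pool.SDB

variable {K : Type*} [Field K] [TopologicalSpace K] [IsTopologicalRing K] [T1Space K]

/-- linear independence of finitely many polynomials is an open condition, coefficientwise -/
theorem li_eventually {σ κ : Type*} [Finite κ] (v : κ → MvPolynomial σ K)
    (hv : LinearIndependent K v) (w : ℕ → κ → MvPolynomial σ K)
    (h : ∀ i u, Tendsto (fun j => coeff u (w j i)) atTop (𝓝 (coeff u (v i)))) :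
    ∀ᶠ j in atTop, LinearIndependent K (w j) := by
  classical
  have := Fintype.ofFinite κ
  set S : Finset (σ →₀ ℕ) := Finset.univ.biUnion fun i => (v i).support with hS
  let π : MvPolynomial σ K →ₗ[K] (S → K) := LinearMap.pi fun u => lcoeff K u.1
  have hπ : ∀ f u, π f u = coeff u.1 f := fun f u => rfl
  let f : (κ → K) →ₗ[K] (S → K) := π ∘ₗ Fintype.linearCombination K v
  have hf : LinearMap.ker f = ⊥ := by
    rw [LinearMap.ker_eq_bot']
    intro c hc
    have h0 : Fintype.linearCombination K v c = 0 := by
      ext u
      by_cases hu : u ∈ S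
      · exact congrFun hc ⟨u, hu⟩
      · rw [Fintype.linearCombination_apply, coeff_sum, coeff_zero]
        refine Finset.sum_eq_zero fun i _ => ?_
        rw [coeff_smul]
        have : coeff u (v i) = 0 := by
          rw [← notMem_support_iff]
          intro hi
          exact hu (Finset.mem_biUnion.mpr ⟨i, Finset.mem_univ _, hi⟩)
        rw [this, smul_zero]
    exact hv.fintypeLinearCombination_injective (by rw [h0, map_zero])
  obtain ⟨g, hg⟩ := LinearMap.exists_leftInverse_of_injective f hf
  let Mx : ℕ → Matrix κ κ K := fun j => Matrix.of fun i i' => g (π (w j i)) i'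
  have hgexp : ∀ (x : S → K) (i' : κ), g x i' = ∑ u, x u * g (Pi.single u 1) i' := by
    intro x i'
    conv_lhs => rw [← Finset.univ_sum_single x]
    rw [map_sum, Finset.sum_apply]
    refine Finset.sum_congr rfl fun u _ => ?_
    have : (Pi.single u (x u) : S → K) = x u • Pi.single u 1 := by
      rw [← Pi.single_smul, smul_eq_mul, mul_one]
    rw [this, map_smul, Pi.smul_apply, smul_eq_mul]
  have hlim : ∀ i i', Tendsto (fun j => Mx j i i') atTop (𝓝 ((1 : Matrix κ κ K) i i')) := by
    intro i i'
    have h1 : Tendsto (fun j => ∑ u : S, π (w j i) u * g (Pi.single u 1) i') atTop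
        (𝓝 (∑ u : S, π (v i) u * g (Pi.single u 1) i')) :=
      tendsto_finsetSum _ fun u _ => (h i u.1).mul_const _
    rw [← hgexp] at h1
    have h2 : g (π (v i)) i' = (1 : Matrix κ κ K) i i' := by
      have h3 : f (Pi.single i 1) = π (v i) := by
        change π (Fintype.linearCombination K v (Pi.single i 1)) = _
        rw [Fintype.linearCombination_apply_single, one_smul]
      rw [← h3]
      have h4 : g (f (Pi.single i 1)) = Pi.single i 1 := by
        have := LinearMap.congr_fun hg (Pi.single i 1)
        simpa using this
      rw [h4, Matrix.one_apply, Pi.single_apply]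
      simp only [eq_comm]
    rw [h2] at h1
    refine h1.congr fun j => ?_
    exact (hgexp _ _).symm
  have hdet : Tendsto (fun j => (Mx j).det) atTop (𝓝 1) := by
    have h1 : Tendsto Mx atTop (𝓝 (1 : Matrix κ κ K)) :=
      tendsto_pi_nhds.mpr fun i => tendsto_pi_nhds.mpr fun i' => hlim i i'
    have h2 : Continuous fun A : Matrix κ κ K => A.det := Continuous.matrix_det continuous_id
    have h3 := (h2.tendsto 1).comp h1
    rw [Matrix.det_one] at h3
    exact h3
  have hne := hdet.eventually_ne one_ne_zero
  filter_upwards [hne] with j hj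
  have h1 : LinearIndependent K (fun i => Mx j i) := by
    have := Matrix.linearIndependent_rows_of_det_ne_zero hj
    exact this
  have h2 : (fun i => Mx j i) = (g ∘ₗ π) ∘ (w j) := by
    funext i
    rfl
  rw [h2] at h1
  exact LinearIndependent.of_comp _ h1

/-- the dimension of the span is lower semicontinuous -/
theorem finrank_le_eventually {σ I : Type*} [Finite I] (v : I → MvPolynomial σ K)
    (w : ℕ → I → MvPolynomial σ K)
    (h : ∀ i u, Tendsto (fun j => coeff u (w j i)) atTop (𝓝 (coeff u (v i)))) :
    ∀ᶠ j in atTop, Module.finrank K (Submodule.span K (Set.range v)) ≤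
      Module.finrank K (Submodule.span K (Set.range (w j))) := by
  classical
  obtain ⟨κ, a, ha, hspan, hli⟩ := exists_linearIndependent' K v
  have : Finite κ := Finite.of_injective a ha
  have := Fintype.ofFinite κ
  have h1 := li_eventually (v ∘ a) hli (fun j => w j ∘ a) (fun i u => h (a i) u)
  filter_upwards [h1] with j hj
  rw [← hspan, finrank_span_eq_card hli, ← finrank_span_eq_card hj]
  have : Module.Finite K (Submodule.span K (Set.range (w j))) :=
    FiniteDimensional.span_of_finite K (Set.finite_range _)
  exact Submodule.finrank_mono (Submodule.span_mono (Set.range_comp_subset_range _ _))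

omit [T1Space K] in
/-- linear functionals are continuous on polynomials with a fixed finite support -/
theorem tendsto_linear {σ : Type*} (Λ : MvPolynomial σ K →ₗ[K] K) (S : Finset (σ →₀ ℕ))
    (F : ℕ → MvPolynomial σ K) (G : MvPolynomial σ K) (hS : ∀ j, (F j).support ⊆ S)
    (h : ∀ u, Tendsto (fun j => coeff u (F j)) atTop (𝓝 (coeff u G))) :
    Tendsto (fun j => Λ (F j)) atTop (𝓝 (Λ G)) := by
  classical
  have key : ∀ P : MvPolynomial σ K, P.support ⊆ S ∪ G.support →
      Λ P = ∑ u ∈ S ∪ G.support, coeff u P * Λ (monomial u 1) := by
    intro P hP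
    conv_lhs => rw [P.as_sum]
    rw [map_sum, Finset.sum_subset hP]
    · refine Finset.sum_congr rfl fun u _ => ?_
      have : monomial u (coeff u P) = coeff u P • monomial u (1 : K) := by
        rw [smul_monomial, smul_eq_mul, mul_one]
      rw [this, map_smul, smul_eq_mul]
    · intro u _ hu
      rw [notMem_support_iff.mp hu, monomial_zero, map_zero]
  rw [key G Finset.subset_union_right]
  have h1 : (fun j => Λ (F j)) = fun j =>
      ∑ u ∈ S ∪ G.support, coeff u (F j) * Λ (monomial u 1) := by
    funext j
    exact key _ ((hS j).trans Finset.subset_union_left)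
  rw [h1]
  exact tendsto_finsetSum _ fun u _ => (h u).mul_const _

end Pool.SDB
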