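import Pool.Agent.SDD.Asm
import Pool.Agent.SDet.Semi

/-!
Second wave of the project SDET: border form of the main inequality for abstract towers.
-/

open MvPolynomial Finset Filter Topology
open scoped BigOperators ENNReal

namespace Pool.SDD

variable {K : Type*} [Field K]

/-- extraction of one mixed coefficient from the sum of the summands -/
lemma extract {E : Type} {ι ι' : Type} {n T D N dl nu : ℕ}
    (pK : ι' → MvPolynomial E K) (pk : ι → MvPolynomial E K)
    (φ0 : Fin n × Fin n → MvPolynomial ((Fin D ⊕ Fin D) × Option (Fin N)) K)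
    (φ : Fin n × Fin n → MvPolynomial (((Fin D ⊕ Fin D) × Option (Fin N)) ⊕ Fin D) K)
    (hφ1 : ∀ x, (φ x).totalDegree ≤ 1)
    (hφ2 : ∀ x, aeval (Sum.elim X 0 : _ → MvPolynomial ((Fin D ⊕ Fin D) × Option (Fin N)) K)
        (φ x) = φ0 x)
    (hR2 : ∀ (A : E → MvPolynomial (((Fin D ⊕ Fin D) × Option (Fin N)) ⊕ Fin D) K),
      (∀ e, (A e).totalDegree ≤ dl) → ∀ F ∈ Wl (fun j => aeval A (pK j)) nu,
      ∃ G ∈ Wl (fun j => aeval (fun e => aeval (Sum.elim X 0 : _ →
        MvPolynomial ((Fin D ⊕ Fin D) × Option (Fin N)) K) (A e)) (pk j)) (nu + D * (dl - 1)),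
      ∀ u : ((Fin D ⊕ Fin D) × Option (Fin N)) →₀ ℕ, coeff u G =
        coeff (u.embDomain ⟨Sum.inl, Sum.inl_injective⟩ +
          ∑ b : Fin D, Finsupp.single (Sum.inr b) 1) F)
    (A : Fin T → E → MvPolynomial (Fin n × Fin n) K) (hA : ∀ t e, (A t e).totalDegree ≤ dl)
    (f : Fin T → MvPolynomial (Fin n × Fin n) K)
    (hf : ∀ t, f t ∈ Wl (fun j => aeval (A t) (pK j)) nu) :
    ∃ G : Fin T → MvPolynomial ((Fin D ⊕ Fin D) × Option (Fin N)) K,
      (∀ t, G t ∈ Wl (fun j => aeval (fun e => aeval φ0 (A t e)) (pk j))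
        (nu + D * (dl - 1))) ∧
      ∀ u, coeff u (∑ t, G t) = coeff (u.embDomain ⟨Sum.inl, Sum.inl_injective⟩ +
          ∑ b : Fin D, Finsupp.single (Sum.inr b) 1) (aeval φ (∑ t, f t)) := by
  classical
  have hcomp0 : ∀ q : MvPolynomial (Fin n × Fin n) K,
      aeval (Sum.elim X 0 : _ → MvPolynomial ((Fin D ⊕ Fin D) × Option (Fin N)) K)
        (aeval φ q) = aeval φ0 q := by
    intro q
    rw [comp_aeval_apply]
    congr 2
    funext x
    exact hφ2 x
  have hF : ∀ t, aeval φ (f t) ∈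
      Wl (fun j => aeval (fun e => aeval φ (A t e)) (pK j)) nu := by
    intro t
    have h1 := aeval_mem_Wl φ hφ1 (hf t)
    have h2 : (fun j => aeval φ (aeval (A t) (pK j))) =
        fun j => aeval (fun e => aeval φ (A t e)) (pK j) := by
      funext j
      rw [comp_aeval_apply]
    rw [h2] at h1
    exact h1
  have hdeg : ∀ t e, (aeval φ (A t e)).totalDegree ≤ dl := by
    intro t e
    have h1 := totalDegree_aeval_le_mul φ 1 hφ1 (A t e)
    rw [mul_one] at h1
    exact h1.trans (hA t e)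
  choose G hG hGc using fun t => hR2 (fun e => aeval φ (A t e)) (hdeg t) _ (hF t)
  refine ⟨G, ?_, ?_⟩
  · intro t
    have h1 := hG t
    simp_rw [hcomp0] at h1
    exact h1
  · intro u
    rw [coeff_sum, Finset.sum_congr rfl fun t _ => hGc t u, ← coeff_sum, ← map_sum]

variable [TopologicalSpace K] [IsTopologicalRing K] [T1Space K]

/-- border form of `V0_le`, at the level of dimensions -/
lemma finrank_V0_border {E : Type} {ι ι' : Type} [Finite ι] {n T D N a dl nu : ℕ}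
    (pK : ι' → MvPolynomial E K) (pk : ι → MvPolynomial E K)
    (φ0 : Fin n × Fin n → MvPolynomial ((Fin D ⊕ Fin D) × Option (Fin N)) K)
    (φ : ((Fin D ⊕ Fin D) → Fin (a + 1)) → Fin n × Fin n →
      MvPolynomial (((Fin D ⊕ Fin D) × Option (Fin N)) ⊕ Fin D) K)
    (hφ1 : ∀ k x, (φ k x).totalDegree ≤ 1)
    (hφ2 : ∀ k x, aeval (Sum.elim X 0 : _ → MvPolynomial ((Fin D ⊕ Fin D) × Option (Fin N)) K)
        (φ k x) = φ0 x)
    (hφ3 : ∀ k, aeval (φ k)
        (Matrix.of fun i j => (X (i, j) : MvPolynomial (Fin n × Fin n) K)).permanent =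
        rename Sum.inl (∏ b, rename (fun v => (b, v)) (Pool.SDL.bp K N a (k b))) *
          ∏ i : Fin D, X (Sum.inr i))
    (hR2 : ∀ (A : E → MvPolynomial (((Fin D ⊕ Fin D) × Option (Fin N)) ⊕ Fin D) K),
      (∀ e, (A e).totalDegree ≤ dl) → ∀ F ∈ Wl (fun j => aeval A (pK j)) nu,
      ∃ G ∈ Wl (fun j => aeval (fun e => aeval (Sum.elim X 0 : _ →
        MvPolynomial ((Fin D ⊕ Fin D) × Option (Fin N)) K) (A e)) (pk j)) (nu + D * (dl - 1)),
      ∀ u : ((Fin D ⊕ Fin D) × Option (Fin N)) →₀ ℕ, coeff u G =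
        coeff (u.embDomain ⟨Sum.inl, Sum.inl_injective⟩ +
          ∑ b : Fin D, Finsupp.single (Sum.inr b) 1) F)
    (A : ℕ → Fin T → E → MvPolynomial (Fin n × Fin n) K)
    (hA : ∀ r t e, (A r t e).totalDegree ≤ dl)
    (f : ℕ → Fin T → MvPolynomial (Fin n × Fin n) K)
    (hf : ∀ r t, f r t ∈ Wl (fun j => aeval (A r t) (pK j)) nu)
    (S : Finset ((Fin n × Fin n) →₀ ℕ)) (hS : ∀ r, (∑ t, f r t).support ⊆ S)
    (h : ∀ u, Tendsto (fun r => coeff u (∑ t, f r t)) atTop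
      (𝓝 (coeff u (Matrix.of fun i j =>
        (X (i, j) : MvPolynomial (Fin n × Fin n) K)).permanent))) (l : ℕ) :
    ∀ᶠ r in atTop,
    Module.finrank K (V0 (Fin D ⊕ Fin D) (Pool.SDL.bp K N a) l) ≤
      ∑ t, Module.finrank K (Wl (fun j => aeval (fun e => aeval φ0 (A r t e)) (pk j))
        (l + (nu + D * (dl - 1)))) := by
  classical
  choose G hG hGc using fun (r : ℕ) (k : (Fin D ⊕ Fin D) → Fin (a + 1)) =>
    extract pK pk φ0 (φ k) (hφ1 k) (hφ2 k) hR2 (A r) (hA r) (f r) (hf r)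
  have hfin := finite_degree_le ((Fin D ⊕ Fin D) × Option (Fin N)) l
  let I := {μ : ((Fin D ⊕ Fin D) × Option (Fin N)) →₀ ℕ // μ.degree ≤ l} ×
    ((Fin D ⊕ Fin D) → Fin (a + 1))
  let v : I → MvPolynomial ((Fin D ⊕ Fin D) × Option (Fin N)) K := fun i =>
    monomial i.1.1 1 * ∏ b, rename (fun v => (b, v)) (Pool.SDL.bp K N a (i.2 b))
  let w : ℕ → I → MvPolynomial ((Fin D ⊕ Fin D) × Option (Fin N)) K := fun r i =>
    monomial i.1.1 1 * ∑ t, G r i.2 t
  have hV : V0 (Fin D ⊕ Fin D) (Pool.SDL.bp K N a) l = Submodule.span K (Set.range v) := by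
    unfold V0
    congr 1
    ext x
    constructor
    · rintro ⟨μ, k, hμ, rfl⟩
      exact ⟨(⟨μ, hμ⟩, k), rfl⟩
    · rintro ⟨⟨μ, k⟩, rfl⟩
      exact ⟨μ.1, k, μ.2, rfl⟩
  have hcoef : ∀ k u, Tendsto (fun r => coeff u (∑ t, G r k t)) atTop
      (𝓝 (coeff u (∏ b, rename (fun v => (b, v)) (Pool.SDL.bp K N a (k b))))) := by
    intro k u
    let Λ : MvPolynomial (Fin n × Fin n) K →ₗ[K] K :=
      (lcoeff K (u.embDomain ⟨Sum.inl, Sum.inl_injective⟩ +
          ∑ b : Fin D, Finsupp.single (Sum.inr b) 1)) ∘ₗ (aeval (φ k)).toLinearMap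
    have h1 := Pool.SDB.tendsto_linear Λ S (fun r => ∑ t, f r t) _ hS h
    have h2 : Λ (Matrix.of fun i j =>
        (X (i, j) : MvPolynomial (Fin n × Fin n) K)).permanent =
        coeff u (∏ b, rename (fun v => (b, v)) (Pool.SDL.bp K N a (k b))) := by
      change coeff _ (aeval (φ k) _) = _
      rw [hφ3]
      have h2 : (∏ i : Fin D, X (Sum.inr i) :
          MvPolynomial (((Fin D ⊕ Fin D) × Option (Fin N)) ⊕ Fin D) K) =
          monomial (∑ b : Fin D, Finsupp.single (Sum.inr b) 1) 1 := by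
        rw [monomial_sum_one]
        rfl
      rw [h2, coeff_mul_monomial, mul_one]
      exact coeff_rename_embDomain (R := K)
        (⟨Sum.inl, Sum.inl_injective⟩ : (Fin D ⊕ Fin D) × Option (Fin N) ↪
          ((Fin D ⊕ Fin D) × Option (Fin N)) ⊕ Fin D)
        (∏ b, rename (fun v => (b, v)) (Pool.SDL.bp K N a (k b))) u
    rw [h2] at h1
    refine h1.congr fun r => ?_
    exact (hGc r k u).symm
  have hw : ∀ i u, Tendsto (fun r => coeff u (w r i)) atTop (𝓝 (coeff u (v i))) := by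
    intro i u
    change Tendsto (fun r => coeff u (monomial i.1.1 (1 : K) * ∑ t, G r i.2 t)) atTop
      (𝓝 (coeff u (monomial i.1.1 (1 : K) *
        ∏ b, rename (fun v => (b, v)) (Pool.SDL.bp K N a (i.2 b)))))
    simp only [coeff_monomial_mul', one_mul]
    split_ifs
    · exact hcoef _ _
    · exact tendsto_const_nhds
  have hI : Finite I := inferInstance
  have h3 := Pool.SDB.finrank_le_eventually v w hw
  filter_upwards [h3] with r hr
  rw [hV]
  refine hr.trans ?_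
  have h4 : Submodule.span K (Set.range (w r)) ≤
      ⨆ t, Wl (fun j => aeval (fun e => aeval φ0 (A r t e)) (pk j))
        (l + (nu + D * (dl - 1))) := by
    rw [Submodule.span_le]
    rintro _ ⟨i, rfl⟩
    change monomial i.1.1 (1 : K) * ∑ t, G r i.2 t ∈ _
    rw [Finset.mul_sum]
    refine Submodule.sum_mem _ fun t _ => ?_
    exact Submodule.mem_iSup_of_mem t (monomial_mul_mem_Wl i.1.2 (hG r i.2 t))
  exact (Submodule.finrank_mono h4).trans (finrank_iSup_le fun t => _)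

/-- the main inequality from its ingredients, border form -/
theorem main_ineq_border [CharZero K] {E : Type} {ι ι' : Type} [Finite ι] {n T D N a dl nu : ℕ}
    (haN : a < N)
    (pK : ι' → MvPolynomial E K) (pk : ι → MvPolynomial E K)
    (φ0 : Fin n × Fin n → MvPolynomial ((Fin D ⊕ Fin D) × Option (Fin N)) K)
    (φ : ((Fin D ⊕ Fin D) → Fin (a + 1)) → Fin n × Fin n →
      MvPolynomial (((Fin D ⊕ Fin D) × Option (Fin N)) ⊕ Fin D) K)
    (hφ1 : ∀ k x, (φ k x).totalDegree ≤ 1)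
    (hφ2 : ∀ k x, aeval (Sum.elim X 0 : _ → MvPolynomial ((Fin D ⊕ Fin D) × Option (Fin N)) K)
        (φ k x) = φ0 x)
    (hφ3 : ∀ k, aeval (φ k)
        (Matrix.of fun i j => (X (i, j) : MvPolynomial (Fin n × Fin n) K)).permanent =
        rename Sum.inl (∏ b, rename (fun v => (b, v)) (Pool.SDL.bp K N a (k b))) *
          ∏ i : Fin D, X (Sum.inr i))
    (hR2 : ∀ (A : E → MvPolynomial (((Fin D ⊕ Fin D) × Option (Fin N)) ⊕ Fin D) K),
      (∀ e, (A e).totalDegree ≤ dl) → ∀ F ∈ Wl (fun j => aeval A (pK j)) nu,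
      ∃ G ∈ Wl (fun j => aeval (fun e => aeval (Sum.elim X 0 : _ →
        MvPolynomial ((Fin D ⊕ Fin D) × Option (Fin N)) K) (A e)) (pk j)) (nu + D * (dl - 1)),
      ∀ u : ((Fin D ⊕ Fin D) × Option (Fin N)) →₀ ℕ, coeff u G =
        coeff (u.embDomain ⟨Sum.inl, Sum.inl_injective⟩ +
          ∑ b : Fin D, Finsupp.single (Sum.inr b) 1) F)
    (Q : ℝ≥0∞) (hQ : Q < 1) (S : ℝ≥0∞)
    (hU : ∀ A : E → MvPolynomial ((Fin D ⊕ Fin D) × Option (Fin N)) K,
      (∀ e, (A e).totalDegree ≤ dl) →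
      (1 - Q) ^ (Fintype.card ((Fin D ⊕ Fin D) × Option (Fin N)) + 1) *
        ∑' l, Q ^ l * (Module.finrank K (Wl (fun j => aeval A (pk j)) l) : ℝ≥0∞) ≤ S)
    (A : ℕ → Fin T → E → MvPolynomial (Fin n × Fin n) K)
    (hA : ∀ r t e, (A r t e).totalDegree ≤ dl)
    (f : ℕ → Fin T → MvPolynomial (Fin n × Fin n) K)
    (hf : ∀ r t, f r t ∈ Wl (fun j => aeval (A r t) (pK j)) nu)
    (Sf : Finset ((Fin n × Fin n) →₀ ℕ)) (hSf : ∀ r, (∑ t, f r t).support ⊆ Sf)
    (h : ∀ u, Tendsto (fun r => coeff u (∑ t, f r t)) atTop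
      (𝓝 (coeff u (Matrix.of fun i j =>
        (X (i, j) : MvPolynomial (Fin n × Fin n) K)).permanent))) :
    Q ^ (nu + D * (dl - 1)) * (1 - (1 - Q ^ N) ^ (a + 1)) ^ (2 * D) ≤
      Q ^ ((N - a) * (2 * D)) * (T * S) := by
  classical
  set c := nu + D * (dl - 1) with hc
  have hcard : Fintype.card (Fin D ⊕ Fin D) = 2 * D := by
    rw [Fintype.card_sum, Fintype.card_fin, two_mul]
  have hL := Pool.SDL.sideL K (Fin D ⊕ Fin D) Empty N a haN Q hQ
  rw [hcard] at hL
  have hcardE : Fintype.card (((Fin D ⊕ Fin D) × Option (Fin N)) ⊕ Empty) =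
      Fintype.card ((Fin D ⊕ Fin D) × Option (Fin N)) := by
    rw [Fintype.card_sum, Fintype.card_empty, add_zero]
  rw [hcardE] at hL
  set M := Fintype.card ((Fin D ⊕ Fin D) × Option (Fin N)) + 1 with hM
  set vd : ℕ → ℝ≥0∞ := fun l => (Module.finrank K
    (Pool.SDL.Vl (Fin D ⊕ Fin D) Empty (Pool.SDL.bp K N a) l) : ℝ≥0∞) with hvd
  have hφ0 : ∀ x, (φ0 x).totalDegree ≤ 1 := by
    intro x
    rw [← hφ2 (fun _ => 0) x]
    have h1 := totalDegree_aeval_le_mul (K := K)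
      (Sum.elim X 0 : _ → MvPolynomial ((Fin D ⊕ Fin D) × Option (Fin N)) K) 1 (by
        rintro (y | y)
        · simp
        · simp) (φ (fun _ => 0) x)
    rw [mul_one] at h1
    exact h1.trans (hφ1 _ _)
  have hdeg : ∀ r t e, (aeval φ0 (A r t e)).totalDegree ≤ dl := by
    intro r t e
    have h1 := totalDegree_aeval_le_mul φ0 1 hφ0 (A r t e)
    rw [mul_one] at h1
    exact h1.trans (hA r t e)
  -- every partial sum of the series is bounded
  have hpart : ∀ L : ℕ, (1 - Q) ^ M * (Q ^ c * ∑ l ∈ range L, Q ^ l * vd l) ≤ T * S := by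
    intro L
    have hev : ∀ᶠ r in atTop, ∀ l ∈ range L,
        Module.finrank K (V0 (Fin D ⊕ Fin D) (Pool.SDL.bp K N a) l) ≤
        ∑ t, Module.finrank K (Wl (fun j => aeval (fun e => aeval φ0 (A r t e)) (pk j))
          (l + c)) := by
      rw [Filter.eventually_all_finset]
      intro l _
      exact finrank_V0_border pK pk φ0 φ hφ1 hφ2 hφ3 hR2 A hA f hf Sf hSf h l
    obtain ⟨r, hr⟩ := hev.exists
    set g : Fin T → ι → MvPolynomial ((Fin D ⊕ Fin D) × Option (Fin N)) K :=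
      fun t j => aeval (fun e => aeval φ0 (A r t e)) (pk j) with hg
    have h1 : Q ^ c * ∑ l ∈ range L, Q ^ l * vd l ≤
        ∑ t, ∑' l, Q ^ l * (Module.finrank K (Wl (g t) l) : ℝ≥0∞) := by
      calc Q ^ c * ∑ l ∈ range L, Q ^ l * vd l
          ≤ Q ^ c * ∑ l ∈ range L, ∑ t,
              Q ^ l * (Module.finrank K (Wl (g t) (l + c)) : ℝ≥0∞) := by
            refine mul_le_mul_right (Finset.sum_le_sum fun l hl => ?_) _
            rw [← Finset.mul_sum]
            refine mul_le_mul_right ?_ _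
            have h2 := (Vl_finrank_le (Fin D ⊕ Fin D) (Pool.SDL.bp K N a) l).trans (hr l hl)
            change ((Module.finrank K (Pool.SDL.Vl (Fin D ⊕ Fin D) Empty
              (Pool.SDL.bp K N a) l) : ℕ) : ℝ≥0∞) ≤ _
            exact_mod_cast h2
        _ ≤ Q ^ c * ∑' l, ∑ t,
              Q ^ l * (Module.finrank K (Wl (g t) (l + c)) : ℝ≥0∞) :=
            mul_le_mul_right (ENNReal.sum_le_tsum _) _
        _ = ∑ t, Q ^ c * ∑' l, Q ^ l * (Module.finrank K (Wl (g t) (l + c)) : ℝ≥0∞) := by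
            rw [Summable.tsum_finsetSum (fun _ _ => ENNReal.summable), Finset.mul_sum]
        _ ≤ _ := by
            refine Finset.sum_le_sum fun t _ => ?_
            exact series_shift (fun l => Module.finrank K (Wl (g t) l)) c Q
    calc (1 - Q) ^ M * (Q ^ c * ∑ l ∈ range L, Q ^ l * vd l)
        ≤ (1 - Q) ^ M * ∑ t, ∑' l, Q ^ l * (Module.finrank K (Wl (g t) l) : ℝ≥0∞) :=
          mul_le_mul_right h1 _
      _ ≤ T * S := by
          rw [Finset.mul_sum]
          refine (Finset.sum_le_sum fun t _ =>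
            hU (fun e => aeval φ0 (A r t e)) (hdeg r t)).trans ?_
          rw [Finset.sum_const, Finset.card_univ, Fintype.card_fin, nsmul_eq_mul]
  have hfinal : (1 - Q) ^ M * (Q ^ c * ∑' l, Q ^ l * vd l) ≤ T * S := by
    rw [ENNReal.tsum_eq_iSup_nat, ENNReal.mul_iSup, ENNReal.mul_iSup]
    exact iSup_le hpart
  calc Q ^ c * (1 - (1 - Q ^ N) ^ (a + 1)) ^ (2 * D)
      ≤ Q ^ c * (Q ^ ((N - a) * (2 * D)) * ((1 - Q) ^ M * ∑' l, Q ^ l * vd l)) := by gcongr
    _ = Q ^ ((N - a) * (2 * D)) * ((1 - Q) ^ M * (Q ^ c * ∑' l, Q ^ l * vd l)) := by ring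
    _ ≤ _ := by gcongr

end Pool.SDD
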