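import Pool.Agent.Helper55.SD.Defs

/-!
Sums of determinants: side (U) and the reduction, shared definitions (MP_381749_lc).
-/

open MvPolynomial Finset
open scoped BigOperators ENNReal

namespace Pool.SDL

variable {K : Type} [Field K]

/-- the `K`-span of the `k`-minors of a matrix -/
noncomputable def detSpan {σ : Type} {m : ℕ} (A : Matrix (Fin m) (Fin m) (MvPolynomial σ K))
    (k : ℕ) : Submodule K (MvPolynomial σ K) :=
  Submodule.span K {f | ∃ r c : Fin k → Fin m, StrictMono r ∧ StrictMono c ∧
    f = (A.submatrix r c).det}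

/-- multiples, by monomials of degree at most `l` in the variables `σ ⊕ (Fin m x Fin m)`, of the
`k`-minors of the matrix `A` over the variables `σ` -/
noncomputable def Ml {σ : Type} {m : ℕ} (A : Matrix (Fin m) (Fin m) (MvPolynomial σ K))
    (k l : ℕ) : Submodule K (MvPolynomial (σ ⊕ (Fin m × Fin m)) K) :=
  Submodule.span K {f | ∃ (μ : (σ ⊕ (Fin m × Fin m)) →₀ ℕ) (r c : Fin k → Fin m),
    μ.degree ≤ l ∧ StrictMono r ∧ StrictMono c ∧
    f = monomial μ 1 * rename Sum.inl (A.submatrix r c).det}

/-- number of skipped rows which are not at the end -/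
noncomputable def rho {m k : ℕ} (f : Fin k ↪o Fin m) : ℕ :=
  Nat.card {i : Fin m // i ∉ Set.range f ∧ ∃ s, i < f s}

end Pool.SDL
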