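import Pool.Agent.SDet.Final
import Mathlib.Combinatorics.Nullstellensatz

/-!
Sums of determinants: it is enough that the identity holds at matrices with small natural entries.
-/

open MvPolynomial Finset
open scoped BigOperators

namespace Pool.SDL

variable {K : Type} [Field K]

theorem totalDegree_det_le' {σ : Type} {s m : ℕ} (hs : s ≤ m)
    (A : Matrix (Fin s) (Fin s) (MvPolynomial σ K)) (hA : ∀ p q, (A p q).totalDegree ≤ 1) :
    A.det.totalDegree ≤ m := by
  classical
  rw [Matrix.det_apply']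
  refine (totalDegree_finsetSum _ _).trans (Finset.sup_le fun τ _ => ?_)
  refine (totalDegree_mul _ _).trans ?_
  have h1 : ((Equiv.Perm.sign τ : ℤ) : MvPolynomial σ K).totalDegree = 0 := by
    have : ((Equiv.Perm.sign τ : ℤ) : MvPolynomial σ K) = C ((Equiv.Perm.sign τ : ℤ) : K) := by simp
    rw [this, totalDegree_C]
  rw [h1, zero_add]
  refine (totalDegree_finsetProd _ _).trans ?_
  calc ∑ i, (A (τ i) i).totalDegree ≤ ∑ _i : Fin s, 1 := Finset.sum_le_sum fun i _ => hA _ _
    _ = s := by simp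
    _ ≤ m := hs

theorem totalDegree_perm_le {n m : ℕ} (hnm : n ≤ m) :
    (Matrix.of fun i j => (X (i, j) : MvPolynomial (Fin n × Fin n) K)).permanent.totalDegree
      ≤ m := by
  classical
  rw [Matrix.permanent]
  refine (totalDegree_finsetSum _ _).trans (Finset.sup_le fun τ _ => ?_)
  refine (totalDegree_finsetProd _ _).trans ?_
  calc ∑ i, (Matrix.of (fun i j => (X (i, j) : MvPolynomial (Fin n × Fin n) K)) (τ i) i).totalDegree
      ≤ ∑ _i : Fin n, 1 := Finset.sum_le_sum fun i _ => by simp [totalDegree_X]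
    _ = n := by simp
    _ ≤ m := hnm

theorem functional [CharZero K] {n m t : ℕ} (hnm : n ≤ m) (s : Fin t → ℕ) (hs : ∀ i, s i ≤ m)
    (A : ∀ i, Matrix (Fin (s i)) (Fin (s i)) (MvPolynomial (Fin n × Fin n) K))
    (hA : ∀ i p q, (A i p q).totalDegree ≤ 1)
    (h : ∀ M : Matrix (Fin n) (Fin n) ℕ, (∀ a b, M a b ≤ m) →
      (M.permanent : K) = ∑ i, ((A i).map (eval fun v => (M v.1 v.2 : K))).det) :
    (Matrix.of fun i j => (X (i, j) : MvPolynomial (Fin n × Fin n) K)).permanent =
      ∑ i, (A i).det := by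
  classical
  rw [← sub_eq_zero]
  apply eq_zero_of_eval_zero_at_prod_finset _
    (fun _ => (Finset.range (m + 1)).map ⟨fun x : ℕ => (x : K), Nat.cast_injective⟩)
  · intro v
    rw [Finset.card_map, Finset.card_range]
    refine Nat.lt_succ_of_le ((degreeOf_le_totalDegree _ _).trans ?_)
    refine (totalDegree_sub _ _).trans (max_le (totalDegree_perm_le hnm) ?_)
    exact (totalDegree_finsetSum _ _).trans
      (Finset.sup_le fun i _ => totalDegree_det_le' (hs i) (A i) (hA i))
  · intro x hx
    have hx' : ∀ v, ∃ k : ℕ, k ≤ m ∧ (k : K) = x v := by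
      intro v
      have := hx v
      simp only [Finset.mem_map, Finset.mem_range, Function.Embedding.coeFn_mk] at this
      obtain ⟨k, hk, e⟩ := this
      exact ⟨k, by omega, e⟩
    choose k hk hkx using hx'
    obtain ⟨M, hM⟩ : ∃ M : Matrix (Fin n) (Fin n) ℕ, ∀ a b, M a b = k (a, b) :=
      ⟨Matrix.of fun a b => k (a, b), fun a b => rfl⟩
    have h1 := h M (fun a b => by rw [hM]; exact hk _)
    have e1 : (fun v : Fin n × Fin n => (M v.1 v.2 : K)) = x := by
      funext v; rw [hM]; exact hkx v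
    rw [e1] at h1
    have e2 : eval x (Matrix.of fun i j =>
        (X (i, j) : MvPolynomial (Fin n × Fin n) K)).permanent = (M.permanent : K) := by
      rw [Matrix.permanent, Matrix.permanent, map_sum, Nat.cast_sum]
      refine Finset.sum_congr rfl fun τ _ => ?_
      rw [map_prod, Nat.cast_prod]
      refine Finset.prod_congr rfl fun i _ => ?_
      simp only [Matrix.of_apply, eval_X]
      rw [hM, hkx]
    rw [map_sub, e2, h1, map_sum, sub_eq_zero]
    refine Finset.sum_congr rfl fun i _ => ?_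
    rw [RingHom.map_det]
    rfl

theorem final_functional : ∃ c : ℝ, 0 < c ∧
    ∀ (K : Type) [Field K] [CharZero K] (n m t : ℕ), 1 ≤ n → n ≤ m →
    ∀ (s : Fin t → ℕ) (A : ∀ i, Matrix (Fin (s i)) (Fin (s i)) (MvPolynomial (Fin n × Fin n) K)),
    (∀ i, s i ≤ m) → (∀ i p q, (A i p q).totalDegree ≤ 1) →
    (∀ M : Matrix (Fin n) (Fin n) ℕ, (∀ a b, M a b ≤ m) →
      (M.permanent : K) = ∑ i, ((A i).map (eval fun v => (M v.1 v.2 : K))).det) →
    Real.exp (c * n ^ 2 / (m * (1 + Real.log (m / n)) ^ 2)) ≤ 2 * t := by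
  obtain ⟨c, hc, H⟩ := final
  exact ⟨c, hc, fun K _ _ n m t hn hnm s A hs hA h =>
    H K n m t hn hnm s A hs hA (functional hnm s hs A hA h)⟩

end Pool.SDL
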