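import Mathlib

/-!
Sums of determinants, side (L), row LB: polynomials in `n` variables are spanned by the products
of the monomials `X ^ β`, `β j ≤ j`, with the monomials in the elementary symmetric polynomials.
-/

namespace SDet

open MvPolynomial

universe u v

section Abstract

variable {R : Type v} [CommRing R]

/-- `lbe u m k` is the `k`-th elementary symmetric function of `u 0, ..., u (m-1)` -/
def lbe (u : ℕ → R) : ℕ → ℕ → R
  | 0, 0 => 1
  | 0, _ + 1 => 0
  | _ + 1, 0 => 1
  | m + 1, k + 1 => lbe u m (k + 1) + u m * lbe u m k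

theorem lbe_zero (u : ℕ → R) (m : ℕ) : lbe u m 0 = 1 := by
  cases m <;> simp [lbe]

theorem lbe_succ (u : ℕ → R) (m k : ℕ) :
    lbe u (m + 1) (k + 1) = lbe u m (k + 1) + u m * lbe u m k := by
  simp [lbe]

theorem lbe_gt (u : ℕ → R) (m k : ℕ) (h : m < k) : lbe u m k = 0 := by
  induction m generalizing k with
  | zero =>
    cases k with
    | zero => omega
    | succ k => simp [lbe]
  | succ m ih =>
    cases k with
    | zero => omega
    | succ k => rw [lbe_succ, ih (k + 1) (by omega), ih k (by omega)]; simp

/-- expansion of the lower level in the higher one -/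
theorem lbe_down (u : ℕ → R) (m k : ℕ) :
    lbe u m k = ∑ i ∈ Finset.range (k + 1), (-u m) ^ i * lbe u (m + 1) (k - i) := by
  induction k with
  | zero => simp [lbe_zero]
  | succ k ih =>
    rw [Finset.sum_range_succ']
    have h : lbe u m (k + 1) = lbe u (m + 1) (k + 1) - u m * lbe u m k := by
      rw [lbe_succ]; ring
    rw [h, ih, Finset.mul_sum]
    have : ∀ i ∈ Finset.range (k + 1), (-u m) ^ (i + 1) * lbe u (m + 1) (k + 1 - (i + 1)) =
        - (u m * ((-u m) ^ i * lbe u (m + 1) (k - i))) := by
      intro i hi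
      rw [Nat.add_sub_add_right]
      ring
    rw [Finset.sum_congr rfl this, Finset.sum_neg_distrib]
    simp
    ring

/-- `u m` is a root of the polynomial with roots `u 0, ..., u m` -/
theorem lbe_root (u : ℕ → R) (m : ℕ) :
    ∑ i ∈ Finset.range (m + 2), (-u m) ^ i * lbe u (m + 1) (m + 1 - i) = 0 := by
  rw [← lbe_down u m (m + 1)]
  exact lbe_gt u m (m + 1) (by omega)

end Abstract

section Sub

variable (K : Type u) [CommRing K] {R : Type v} [CommRing R] [Algebra K R]

/-- the subalgebra generated by the elementary symmetric functions -/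
noncomputable def lbE (u : ℕ → R) (m : ℕ) : Subalgebra K R :=
  Algebra.adjoin K {x | ∃ k, k < m ∧ x = lbe u m (k + 1)}

theorem lbe_mem (u : ℕ → R) (m k : ℕ) : lbe u m k ∈ lbE K u m := by
  cases k with
  | zero => rw [lbe_zero]; exact one_mem _
  | succ k =>
    by_cases h : k < m
    · exact Algebra.subset_adjoin ⟨k, h, rfl⟩
    · rw [lbe_gt u m (k + 1) (by omega)]; exact zero_mem _

/-- the span of the reduced monomials -/
noncomputable def lbB (u : ℕ → R) (m : ℕ) : Submodule K R :=
  Submodule.span K {x | ∃ β : ℕ → ℕ, (∀ j, β j ≤ j) ∧ x = ∏ j ∈ Finset.range m, u j ^ β j}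

theorem lbB_succ (u : ℕ → R) (m : ℕ) :
    lbB K u m * Submodule.span K {x | ∃ i, i ≤ m ∧ x = u m ^ i} ≤ lbB K u (m + 1) := by
  rw [lbB, Submodule.span_mul_span, Submodule.span_le]
  rintro x ⟨a, ⟨β, hβ, rfl⟩, b, ⟨i, hi, rfl⟩, rfl⟩
  apply Submodule.subset_span
  refine ⟨fun j => if j = m then i else β j, ?_, ?_⟩
  · intro j
    by_cases h : j = m
    · simp [h, hi]
    · simp [h, hβ j]
  · simp only
    rw [Finset.prod_range_succ]
    simp only [if_true]
    congr 1
    apply Finset.prod_congr rfl
    intro j hj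
    rw [if_neg (by simp at hj; omega)]

/-- powers of `u m` reduce -/
theorem lb_pow (u : ℕ → R) (m i : ℕ) :
    u m ^ i ∈ Submodule.span K {x | ∃ i, i ≤ m ∧ x = u m ^ i} *
      Subalgebra.toSubmodule (lbE K u (m + 1)) := by
  set D := Submodule.span K {x | ∃ i, i ≤ m ∧ x = u m ^ i} with hD
  set E := Subalgebra.toSubmodule (lbE K u (m + 1)) with hE
  have hsmall : ∀ i, i ≤ m → u m ^ i ∈ D * E := by
    intro i hi
    have := Submodule.mul_mem_mul (M := D) (N := E) (Submodule.subset_span ⟨i, hi, rfl⟩)
      (show (1 : R) ∈ E from one_mem (lbE K u (m + 1)))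
    simpa using this
  have hE2 : ∀ x ∈ D * E, ∀ e ∈ E, x * e ∈ D * E := by
    intro x hx e he
    have h2 : x * e ∈ D * E * E := Submodule.mul_mem_mul hx he
    rw [mul_assoc] at h2
    have h3 : E * E = E := (lbE K u (m + 1)).isIdempotentElem_toSubmodule
    rwa [h3] at h2
  have htop : u m ^ (m + 1) ∈ D * E := by
    have h0 := lbe_root u m
    rw [Finset.sum_range_succ, Nat.sub_self, lbe_zero, mul_one] at h0
    have h1 : u m ^ (m + 1) = (-1) ^ m * ∑ i ∈ Finset.range (m + 1),
        (-u m) ^ i * lbe u (m + 1) (m + 1 - i) := by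
      have h2 : ∑ i ∈ Finset.range (m + 1), (-u m) ^ i * lbe u (m + 1) (m + 1 - i) =
          - (-u m) ^ (m + 1) := by linear_combination h0
      rw [h2, neg_pow (u m) (m + 1)]
      have h3 : ((-1 : R) ^ m) * (-1) ^ m = 1 := by
        rw [← mul_pow]; simp
      calc u m ^ (m + 1) = ((-1 : R) ^ m * (-1) ^ m) * u m ^ (m + 1) := by rw [h3, one_mul]
        _ = (-1) ^ m * -((-1) ^ (m + 1) * u m ^ (m + 1)) := by ring
    rw [h1]
    have h4 : ∀ y ∈ D * E, (-1 : R) ^ m * y ∈ D * E := by
      intro y hy
      rcases neg_one_pow_eq_or R m with h | h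
      · rw [h, one_mul]; exact hy
      · rw [h, neg_one_mul]; exact neg_mem hy
    apply h4
    apply sum_mem
    intro i hi
    have hi' : i ≤ m := by simp at hi; omega
    rw [neg_pow, mul_assoc]
    have h5 : u m ^ i * lbe u (m + 1) (m + 1 - i) ∈ D * E :=
      hE2 _ (hsmall i hi') _ (lbe_mem K u (m + 1) _)
    rcases neg_one_pow_eq_or R i with h | h
    · rw [h, one_mul]; exact h5
    · rw [h, neg_one_mul]; exact neg_mem h5
  have hstep : ∀ x ∈ D * E, u m * x ∈ D * E := by
    intro x hx
    induction hx using Submodule.mul_induction_on' with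
    | mem_mul_mem a ha e he =>
      rw [← mul_assoc]
      apply hE2 _ _ e he
      induction ha using Submodule.span_induction with
      | mem x hx =>
        obtain ⟨i, hi, rfl⟩ := hx
        rw [← pow_succ']
        rcases Nat.lt_or_ge i m with h | h
        · exact hsmall (i + 1) h
        · have : i = m := le_antisymm hi h
          rw [this]; exact htop
      | zero => simp
      | add x y _ _ hx hy => rw [mul_add]; exact add_mem hx hy
      | smul c x _ hx => rw [mul_smul_comm]; exact Submodule.smul_mem _ _ hx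
    | add x _ y _ hx hy => rw [mul_add]; exact add_mem hx hy
  induction i with
  | zero => exact hsmall 0 (by omega)
  | succ i ih => rw [pow_succ']; exact hstep _ ih

theorem lb_main (u : ℕ → R) (m : ℕ) :
    Subalgebra.toSubmodule (Algebra.adjoin K {x | ∃ j, j < m ∧ x = u j}) ≤
      lbB K u m * Subalgebra.toSubmodule (lbE K u m) := by
  induction m with
  | zero =>
    have h1 : ({x | ∃ j, j < 0 ∧ x = u j} : Set R) = ∅ := by
      ext x; simp
    rw [h1, Algebra.adjoin_empty]
    have h2 : (1 : R) ∈ lbB K u 0 := by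
      apply Submodule.subset_span
      exact ⟨fun _ => 0, by simp, by simp⟩
    intro x hx
    obtain ⟨c, rfl⟩ := Algebra.mem_bot.1 hx
    have h3 := Submodule.mul_mem_mul h2
      (show algebraMap K R c ∈ Subalgebra.toSubmodule (lbE K u 0) from
        (lbE K u 0).algebraMap_mem c)
    simpa using h3
  | succ m ih =>
    have h1 : ({x | ∃ j, j < m + 1 ∧ x = u j} : Set R) = {x | ∃ j, j < m ∧ x = u j} ∪ {u m} := by
      ext x
      simp only [Set.mem_ofPred_eq, Set.mem_union, Set.mem_singleton_iff]
      constructor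
      · rintro ⟨j, hj, rfl⟩
        rcases Nat.lt_or_ge j m with h | h
        · exact Or.inl ⟨j, h, rfl⟩
        · have : j = m := by omega
          right; rw [this]
      · rintro (⟨j, hj, rfl⟩ | rfl)
        · exact ⟨j, by omega, rfl⟩
        · exact ⟨m, by omega, rfl⟩
    rw [h1, Algebra.adjoin_union_coe_submodule]
    set P := Subalgebra.toSubmodule (Algebra.adjoin K {u m}) with hP
    set D := Submodule.span K {x | ∃ i, i ≤ m ∧ x = u m ^ i} with hD
    set E' := Subalgebra.toSubmodule (lbE K u (m + 1)) with hE'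
    have hEP : Subalgebra.toSubmodule (lbE K u m) ≤ E' * P := by
      rw [hE', hP, lbE, lbE, ← Algebra.adjoin_union_coe_submodule]
      rw [Subalgebra.toSubmodule.map_rel_iff]
      rw [Algebra.adjoin_le_iff]
      rintro x ⟨k, hk, rfl⟩
      rw [SetLike.mem_coe, lbe_down]
      apply sum_mem
      intro i hi
      apply mul_mem
      · apply pow_mem
        apply neg_mem
        exact Algebra.subset_adjoin (Or.inr rfl)
      · exact Algebra.adjoin_mono Set.subset_union_left (lbe_mem K u (m + 1) _)
    have hPD : P ≤ D * E' := by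
      rw [hP, Algebra.adjoin_eq_span, Submodule.span_le]
      rintro x hx
      rw [SetLike.mem_coe] at hx
      obtain ⟨i, rfl⟩ := Submonoid.mem_closure_singleton.1 hx
      exact lb_pow K u m i
    have hEE : E' * E' = E' := (lbE K u (m + 1)).isIdempotentElem_toSubmodule
    have hPP : P * P = P := (Algebra.adjoin K {u m}).isIdempotentElem_toSubmodule
    calc _ ≤ lbB K u m * Subalgebra.toSubmodule (lbE K u m) * P := by
            gcongr
      _ ≤ lbB K u m * (E' * P) * P := by gcongr
      _ = lbB K u m * E' * P := by rw [mul_assoc, mul_assoc E' P P, hPP, ← mul_assoc]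
      _ ≤ lbB K u m * E' * (D * E') := by gcongr
      _ = (lbB K u m * D) * E' := by
            rw [mul_comm D E', mul_assoc, ← mul_assoc E' E' D, hEE, mul_comm E' D, ← mul_assoc]
      _ ≤ lbB K u (m + 1) * E' := by
            gcongr
            exact lbB_succ K u m

end Sub

section Final

variable {R : Type v} [CommRing R]

theorem lbe_eq (u : ℕ → R) (m k : ℕ) :
    lbe u m k = ∑ t ∈ Finset.powersetCard k (Finset.range m), ∏ i ∈ t, u i := by
  classical
  induction m generalizing k with
  | zero =>
    cases k with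
    | zero => simp [lbe]
    | succ k =>
      rw [Finset.range_zero, Finset.powersetCard_eq_empty.2 (by simp)]
      simp [lbe]
  | succ m ih =>
    cases k with
    | zero => simp [lbe]
    | succ k =>
      rw [lbe_succ, ih, ih, Finset.range_add_one, Finset.powersetCard_succ_insert
        Finset.notMem_range_self, Finset.sum_union]
      · congr 1
        rw [Finset.sum_image, Finset.mul_sum]
        · apply Finset.sum_congr rfl
          intro t ht
          rw [Finset.prod_insert]
          intro h
          exact Finset.notMem_range_self ((Finset.mem_powersetCard.1 ht).1 h)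
        · intro a ha b hb hab
          have ha' : m ∉ a := fun h =>
            Finset.notMem_range_self ((Finset.mem_powersetCard.1 ha).1 h)
          have hb' : m ∉ b := fun h =>
            Finset.notMem_range_self ((Finset.mem_powersetCard.1 hb).1 h)
          rw [← Finset.erase_insert ha', ← Finset.erase_insert hb', hab]
      · rw [Finset.disjoint_left]
        intro t ht ht'
        obtain ⟨s, hs, rfl⟩ := Finset.mem_image.1 ht'
        exact Finset.notMem_range_self
          ((Finset.mem_powersetCard.1 ht).1 (Finset.mem_insert_self m s))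

/-- the variables as a sequence -/
noncomputable def lbX (K : Type u) [CommRing K] (n : ℕ) (j : ℕ) : MvPolynomial (Fin n) K :=
  if h : j < n then X ⟨j, h⟩ else 0

theorem lbX_val (K : Type u) [CommRing K] (n : ℕ) (j : Fin n) : lbX K n j = X j := by
  simp [lbX]

theorem lbe_esymm (K : Type u) [CommRing K] (n k : ℕ) :
    lbe (lbX K n) n k = esymm (Fin n) K k := by
  classical
  rw [lbe_eq, esymm]
  have h : Finset.range n = (Finset.univ : Finset (Fin n)).map Fin.valEmbedding := by
    ext x
    simp only [Finset.mem_range, Finset.mem_map, Finset.mem_univ, true_and, Fin.valEmbedding_apply]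
    constructor
    · intro hx
      exact ⟨⟨x, hx⟩, rfl⟩
    · rintro ⟨a, rfl⟩
      exact a.2
  rw [h, Finset.powersetCard_map, Finset.sum_map]
  apply Finset.sum_congr rfl
  intro t ht
  simp only [Finset.mapEmbedding, OrderEmbedding.coe_ofMapLEIff, RelEmbedding.coe_toEmbedding]
  rw [Finset.prod_map]
  apply Finset.prod_congr rfl
  intro i hi
  exact lbX_val K n i

/-- LB -/
theorem span_esymm (K : Type u) [CommRing K] (n : ℕ) :
    Submodule.span K {f : MvPolynomial (Fin n) K | ∃ β γ : Fin n → ℕ, (∀ j, β j ≤ (j : ℕ)) ∧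
      f = (∏ j, X j ^ β j) * ∏ j : Fin n, (esymm (Fin n) K (j + 1)) ^ γ j} = ⊤ := by
  classical
  rw [eq_top_iff]
  have h0 : (⊤ : Submodule K (MvPolynomial (Fin n) K)) ≤ Subalgebra.toSubmodule
      (Algebra.adjoin K {x | ∃ j, j < n ∧ x = lbX K n j}) := by
    rw [← Algebra.top_toSubmodule, ← MvPolynomial.adjoin_range_X]
    rw [Subalgebra.toSubmodule.map_rel_iff]
    apply Algebra.adjoin_mono
    rintro x ⟨j, rfl⟩
    exact ⟨j, j.2, (lbX_val K n j).symm⟩
  refine h0.trans ((lb_main K (lbX K n) n).trans ?_)
  have h1 : Subalgebra.toSubmodule (lbE K (lbX K n) n) ≤ Submodule.span K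
      {f | ∃ γ : Fin n → ℕ, f = ∏ j : Fin n, (esymm (Fin n) K (j + 1)) ^ γ j} := by
    rw [lbE, Algebra.adjoin_eq_span]
    apply Submodule.span_mono
    intro x hx
    induction hx using Submonoid.closure_induction with
    | mem x hx =>
      obtain ⟨k, hk, rfl⟩ := hx
      refine ⟨fun j => if (j : ℕ) = k then 1 else 0, ?_⟩
      rw [Finset.prod_eq_single (⟨k, hk⟩ : Fin n)]
      · simp [lbe_esymm]
      · intro b _ hb
        have : (b : ℕ) ≠ k := fun h => hb (Fin.ext h)
        simp [this]
      · simp
    | one => exact ⟨fun _ => 0, by simp⟩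
    | mul x y _ _ hx hy =>
      obtain ⟨γ, rfl⟩ := hx
      obtain ⟨γ', rfl⟩ := hy
      refine ⟨fun j => γ j + γ' j, ?_⟩
      rw [← Finset.prod_mul_distrib]
      apply Finset.prod_congr rfl
      intro j _
      rw [pow_add]
  refine le_trans (mul_le_mul' le_rfl h1) ?_
  rw [lbB, Submodule.span_mul_span]
  apply Submodule.span_mono
  rintro x ⟨a, ⟨β, hβ, rfl⟩, b, ⟨γ, rfl⟩, rfl⟩
  refine ⟨fun j => β j, γ, fun j => hβ j, ?_⟩
  simp only
  congr 1
  rw [← Fin.prod_univ_eq_prod_range (fun j => lbX K n j ^ β j) n]
  apply Finset.prod_congr rfl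
  intro j _
  rw [lbX_val]

end Final

end SDet
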