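import Pool.Agent.SDet.LB

/-!
Sums of determinants, side (L): the ideal generated by the last elementary symmetric functions
is large in every degree.
-/

namespace SDet

open MvPolynomial

universe u

/-- indices of the quotient basis -/
abbrev LT (N a : ℕ) : Type := ℕ × ((j : Fin N) → Fin (j + 1)) × (Fin (N - a - 1) → ℕ)

/-- degree of an index -/
def ldeg {N a : ℕ} (x : LT N a) : ℕ :=
  x.1 + ∑ j : Fin N, ((x.2.1 j : Fin (j + 1)) : ℕ) + ∑ k : Fin (N - a - 1), ((k : ℕ) + 1) * x.2.2 k

theorem esymm_homog (K : Type u) [CommRing K] (n k : ℕ) : (esymm (Fin n) K k).IsHomogeneous k := by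
  rw [esymm]
  apply IsHomogeneous.sum
  intro t ht
  have h := IsHomogeneous.prod t (fun i => (X i : MvPolynomial (Fin n) K)) (fun _ => 1)
    (fun i _ => isHomogeneous_X K i)
  simpa [(Finset.mem_powersetCard.1 ht).2] using h

variable (K : Type u) [Field K]

/-- the degree `d` part of the ideal generated by `e_(N-r)`, `r ≤ a`, in the variables
`none`, `some j` -/
noncomputable def LJ (N a d : ℕ) : Submodule K (MvPolynomial (Option (Fin N)) K) :=
  Submodule.span K {f | ∃ (μ : Option (Fin N) →₀ ℕ) (r : ℕ), r ≤ a ∧ μ.degree + (N - r) = d ∧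
    f = monomial μ 1 * rename some (esymm (Fin N) K (N - r))}

/-- the element of the quotient basis -/
noncomputable def lel (N a : ℕ) (x : LT N a) : MvPolynomial (Option (Fin N)) K :=
  X none ^ x.1 * rename some ((∏ j : Fin N, X j ^ ((x.2.1 j : Fin (j + 1)) : ℕ)) *
    ∏ k : Fin (N - a - 1), (esymm (Fin N) K (k + 1)) ^ x.2.2 k)

theorem lel_homog (N a : ℕ) (x : LT N a) : (lel K N a x).IsHomogeneous (ldeg x) := by
  unfold lel ldeg
  rw [add_assoc]
  have h1 : (X none ^ x.1 : MvPolynomial (Option (Fin N)) K).IsHomogeneous x.1 := by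
    simpa using (isHomogeneous_X K (none : Option (Fin N))).pow x.1
  apply h1.mul
  apply IsHomogeneous.rename_isHomogeneous
  apply IsHomogeneous.mul
  · apply IsHomogeneous.prod
    intro j _
    simpa using (isHomogeneous_X K j).pow ((x.2.1 j : Fin (j + 1)) : ℕ)
  · apply IsHomogeneous.prod
    intro k _
    exact (esymm_homog K N (k + 1)).pow (x.2.2 k)

theorem LJ_homog (N a d : ℕ) : LJ K N a d ≤ homogeneousSubmodule (Option (Fin N)) K d := by
  rw [LJ, Submodule.span_le]
  rintro f ⟨μ, r, hr, hd, rfl⟩
  rw [SetLike.mem_coe, mem_homogeneousSubmodule, ← hd]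
  apply IsHomogeneous.mul
  · exact isHomogeneous_monomial 1 rfl
  · exact (esymm_homog K N (N - r)).rename_isHomogeneous

theorem LJ_mul (N a r : ℕ) (hr : r ≤ a) (p : MvPolynomial (Option (Fin N)) K) :
    p * rename some (esymm (Fin N) K (N - r)) ∈ ⨆ d, LJ K N a d := by
  induction p using MvPolynomial.induction_on' with
  | monomial μ c =>
    have h : (monomial μ c : MvPolynomial (Option (Fin N)) K) = c • monomial μ 1 := by
      rw [smul_monomial, smul_eq_mul, mul_one]
    rw [h, smul_mul_assoc]
    apply Submodule.smul_mem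
    apply Submodule.mem_iSup_of_mem (μ.degree + (N - r))
    exact Submodule.subset_span ⟨μ, r, hr, rfl, rfl⟩
  | add p q hp hq =>
    rw [add_mul]
    exact add_mem hp hq

theorem lb2_elem (N a : ℕ) (haN : a < N) (i : ℕ) (β γ : Fin N → ℕ) (hβ : ∀ j, β j ≤ (j : ℕ)) :
    X none ^ i * rename some ((∏ j, X j ^ β j) * ∏ j : Fin N, (esymm (Fin N) K (j + 1)) ^ γ j) ∈
      (⨆ d, LJ K N a d) ⊔ Submodule.span K (Set.range (lel K N a)) := by
  classical
  by_cases hγ : ∃ k : Fin N, N - a ≤ k + 1 ∧ γ k ≠ 0
  · obtain ⟨k, hk, hk0⟩ := hγ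
    apply Submodule.mem_sup_left
    have h1 : ∏ j : Fin N, (esymm (Fin N) K (j + 1)) ^ γ j =
        ((∏ j ∈ Finset.univ.erase k, (esymm (Fin N) K (j + 1)) ^ γ j) *
          (esymm (Fin N) K (k + 1)) ^ (γ k - 1)) * esymm (Fin N) K (k + 1) := by
      rw [← Finset.mul_prod_erase Finset.univ _ (Finset.mem_univ k)]
      have : γ k = (γ k - 1) + 1 := by omega
      conv_lhs => rw [this, pow_succ]
      ring
    have h2 : N - (N - (k + 1)) = (k : ℕ) + 1 := by have := k.2; omega
    rw [h1, ← mul_assoc, map_mul, ← mul_assoc]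
    have h3 := LJ_mul K N a (N - (k + 1)) (by omega) (X none ^ i *
      rename some ((∏ j, X j ^ β j) * ((∏ j ∈ Finset.univ.erase k, (esymm (Fin N) K (j + 1)) ^ γ j) *
          (esymm (Fin N) K (k + 1)) ^ (γ k - 1))))
    rw [h2] at h3
    exact h3
  · push Not at hγ
    apply Submodule.mem_sup_right
    apply Submodule.subset_span
    refine ⟨(i, fun j => ⟨β j, Nat.lt_succ_of_le (hβ j)⟩, fun k => γ ⟨k, by have := k.2; omega⟩), ?_⟩
    unfold lel
    simp only
    congr 3
    symm
    have h4 : ∀ j : Fin N, (esymm (Fin N) K (j + 1)) ^ γ j =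
        (fun j : ℕ => if h : j < N - a - 1 then
          (esymm (Fin N) K (j + 1)) ^ γ ⟨j, by omega⟩ else 1) j := by
      intro j
      by_cases hj : (j : ℕ) < N - a - 1
      · simp [hj]
      · have : γ j = 0 := hγ j (by omega)
        simp [hj, this]
    rw [Finset.prod_congr rfl (fun j _ => h4 j), Fin.prod_univ_eq_prod_range
      (fun j : ℕ => if h : j < N - a - 1 then
          (esymm (Fin N) K (j + 1)) ^ γ ⟨j, by omega⟩ else 1) N]
    have h5 : ∀ k : Fin (N - a - 1), (esymm (Fin N) K (k + 1)) ^ γ ⟨k, by have := k.2; omega⟩ =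
        (fun j : ℕ => if h : j < N - a - 1 then
          (esymm (Fin N) K (j + 1)) ^ γ ⟨j, by omega⟩ else 1) k := by
      intro k
      simp
    rw [Finset.prod_congr rfl (fun j _ => h5 j), Fin.prod_univ_eq_prod_range
      (fun j : ℕ => if h : j < N - a - 1 then
          (esymm (Fin N) K (j + 1)) ^ γ ⟨j, by omega⟩ else 1) (N - a - 1)]
    symm
    apply Finset.prod_subset
    · intro x hx
      simp at hx ⊢
      omega
    · intro x _ hx
      simp at hx
      simp [hx]

theorem lb2_top (N a : ℕ) (haN : a < N) :
    (⨆ d, LJ K N a d) ⊔ Submodule.span K (Set.range (lel K N a)) = ⊤ := by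
  classical
  rw [eq_top_iff]
  rintro f -
  have key : ∀ (i : ℕ) (g : MvPolynomial (Fin N) K), X none ^ i * rename some g ∈
      (⨆ d, LJ K N a d) ⊔ Submodule.span K (Set.range (lel K N a)) := by
    intro i g
    have hg : g ∈ Submodule.span K {f : MvPolynomial (Fin N) K | ∃ β γ : Fin N → ℕ,
      (∀ j, β j ≤ (j : ℕ)) ∧
      f = (∏ j, X j ^ β j) * ∏ j : Fin N, (esymm (Fin N) K (j + 1)) ^ γ j} := by
      rw [span_esymm]; trivial
    induction hg using Submodule.span_induction with
    | mem x hx =>
      obtain ⟨β, γ, hβ, rfl⟩ := hx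
      exact lb2_elem K N a haN i β γ hβ
    | zero => simp
    | add x y _ _ hx hy => rw [map_add, mul_add]; exact add_mem hx hy
    | smul c x _ hx => rw [map_smul, mul_smul_comm]; exact Submodule.smul_mem _ _ hx
  induction f using MvPolynomial.induction_on' with
  | monomial μ c =>
    have h := key (μ none) (monomial (μ.some) c)
    have h2 : (monomial μ c : MvPolynomial (Option (Fin N)) K) =
        X none ^ μ none * rename some (monomial (μ.some) c) := by
      rw [rename_monomial, X_pow_eq_monomial, monomial_mul, one_mul]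
      have h3 : Finsupp.single none (μ none) + Finsupp.mapDomain some μ.some = μ := by
        apply DFunLike.ext
        intro x
        cases x with
        | none =>
          rw [Finsupp.add_apply, Finsupp.single_eq_same, Finsupp.mapDomain_of_notMem_range]
          · simp
          · simp
        | some x =>
          rw [Finsupp.add_apply, Finsupp.mapDomain_apply (Option.some_injective _)]
          simp
      rw [h3]
    rw [h2]
    exact h
  | add p q hp hq => exact add_mem hp hq

theorem lb2_homog (N a : ℕ) (haN : a < N) (d : ℕ) :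
    homogeneousSubmodule (Option (Fin N)) K d ≤
      LJ K N a d ⊔ Submodule.span K (Set.range fun x : {x : LT N a // ldeg x = d} =>
        lel K N a x.1) := by
  classical
  intro f hf
  have h1 : homogeneousComponent d f = f := homogeneousComponent_eq_self hf
  have h2 : f ∈ (⨆ d, LJ K N a d) ⊔ Submodule.span K (Set.range (lel K N a)) := by
    rw [lb2_top K N a haN]; trivial
  rw [← h1]
  have h3 : Submodule.map (homogeneousComponent d)
      ((⨆ d, LJ K N a d) ⊔ Submodule.span K (Set.range (lel K N a))) ≤
      LJ K N a d ⊔ Submodule.span K (Set.range fun x : {x : LT N a // ldeg x = d} =>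
        lel K N a x.1) := by
    rw [Submodule.map_sup, Submodule.map_iSup]
    apply sup_le
    · apply iSup_le
      intro e
      rw [Submodule.map_le_iff_le_comap]
      intro g hg
      rw [Submodule.mem_comap]
      have h4 := LJ_homog K N a e hg
      rw [mem_homogeneousSubmodule] at h4
      rw [homogeneousComponent_of_mem h4]
      split_ifs with h
      · apply Submodule.mem_sup_left
        rw [h]; exact hg
      · exact zero_mem _
    · rw [Submodule.map_span_le]
      rintro g ⟨x, rfl⟩
      rw [homogeneousComponent_of_mem (lel_homog K N a x)]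
      split_ifs with h
      · apply Submodule.mem_sup_right
        exact Submodule.subset_span ⟨⟨x, h.symm⟩, rfl⟩
      · exact zero_mem _
  exact h3 (Submodule.mem_map_of_mem h2)

theorem ldeg_fin (N a : ℕ) (d : ℕ) : Finite {x : LT N a // ldeg x = d} := by
  classical
  have h : Function.Injective (fun x : {x : LT N a // ldeg x = d} =>
      ((⟨x.1.1, by
        have h := x.2; unfold ldeg at h; omega⟩ : Fin (d + 1)),
      x.1.2.1, fun k => (⟨x.1.2.2 k, by
        have h := x.2
        unfold ldeg at h
        have h2 : ((k : ℕ) + 1) * x.1.2.2 k ≤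
            ∑ k : Fin (N - a - 1), ((k : ℕ) + 1) * x.1.2.2 k :=
          Finset.single_le_sum (f := fun k : Fin (N - a - 1) => ((k : ℕ) + 1) * x.1.2.2 k)
            (fun _ _ => Nat.zero_le _) (Finset.mem_univ k)
        have h3 : x.1.2.2 k ≤ ((k : ℕ) + 1) * x.1.2.2 k := by nlinarith [Nat.zero_le (k : ℕ), Nat.zero_le (x.1.2.2 k), Nat.zero_le ((k : ℕ) * x.1.2.2 k)]
        omega⟩ : Fin (d + 1)))) := by
    rintro ⟨⟨i, β, γ⟩, hx⟩ ⟨⟨i', β', γ'⟩, hx'⟩ h
    simp only [Prod.mk.injEq, Fin.mk.injEq] at h
    obtain ⟨h1, h2, h3⟩ := h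
    subst h1
    subst h2
    have h4 : γ = γ' := by
      funext k
      have := congrFun h3 k
      simpa using this
    subst h4
    rfl
  exact Finite.of_injective _ h

theorem lb2_finrank (N a : ℕ) (haN : a < N) (d : ℕ) :
    Module.finrank K (homogeneousSubmodule (Option (Fin N)) K d) ≤
      Module.finrank K (LJ K N a d) + Nat.card {x : LT N a // ldeg x = d} := by
  classical
  have := ldeg_fin N a d
  have := Fintype.ofFinite {x : LT N a // ldeg x = d}
  have h1 : Module.Finite K (homogeneousSubmodule (Option (Fin N)) K d) :=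
    Module.Finite.iff_fg.2 (homogeneousSubmodule_fg (Option (Fin N)) K d)
  have h2 : Module.Finite K (LJ K N a d) :=
    Submodule.finiteDimensional_of_le (LJ_homog K N a d)
  have h3 : Module.Finite K (Submodule.span K (Set.range
      fun x : {x : LT N a // ldeg x = d} => lel K N a x.1)) :=
    FiniteDimensional.span_of_finite K (Set.finite_range _)
  calc _ ≤ Module.finrank K (LJ K N a d ⊔ Submodule.span K (Set.range
          fun x : {x : LT N a // ldeg x = d} => lel K N a x.1) : Submodule K _) :=
        Submodule.finrank_mono (lb2_homog K N a haN d)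
    _ ≤ Module.finrank K (LJ K N a d) + Module.finrank K (Submodule.span K (Set.range
          fun x : {x : LT N a // ldeg x = d} => lel K N a x.1)) :=
        Submodule.finrank_add_le_finrank_add_finrank _ _
    _ ≤ _ := by
        gcongr
        rw [Nat.card_eq_fintype_card]
        exact finrank_range_le_card (fun x : {x : LT N a // ldeg x = d} => lel K N a x.1)

end SDet
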