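import Pool.Agent.SDet.Border
import Pool.Agent.SDD.Main
import Pool.Agent.SDD.PfInst
import Pool.Agent.PF.Grid

/-!
Second wave of the project SDET: sums of products of a polynomial of small degree and a Pfaffian,
border form, for the permanent.
-/

open MvPolynomial Finset Filter Topology
open scoped BigOperators ENNReal

namespace Pool.SDF

/-- the generic permanent -/
noncomputable def gperm (K : Type) [Field K] (n : ℕ) : MvPolynomial (Fin n × Fin n) K :=
  (Matrix.of fun i j => (X (i, j) : MvPolynomial (Fin n × Fin n) K)).permanent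

/-- the permanent of small natural matrices is approximated to any precision by sums of `T`
products of a polynomial of degree at most `nu` and a Pfaffian of order at most `2 m`, with
entries of degree at most `d` -/
def Apx (K : Type) [NormedField K] (n m d nu T : ℕ) : Prop :=
  ∀ ε : ℝ, 0 < ε → ∃ (s : Fin T → ℕ) (P : Fin T → MvPolynomial (Fin n × Fin n) K)
    (A : ∀ i, Matrix (Fin (2 * s i)) (Fin (2 * s i)) (MvPolynomial (Fin n × Fin n) K)),
    (∀ i, s i ≤ m) ∧ (∀ i, (P i).totalDegree ≤ nu) ∧ (∀ i p q, (A i p q).totalDegree ≤ d) ∧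
    ∀ M : Matrix (Fin n) (Fin n) ℕ, (∀ a b, M a b ≤ m * d + nu) →
      ‖(M.permanent : K) - ∑ i, eval (fun v => (M v.1 v.2 : K)) (P i) *
        Pool.PF.pf (s i) ((A i).map (eval fun v => (M v.1 v.2 : K)))‖ < ε

lemma degreeOf_gperm_le {K : Type} [Field K] (n : ℕ) (v : Fin n × Fin n) :
    (gperm K n).degreeOf v ≤ 1 := by
  classical
  rw [degreeOf_le_iff]
  intro u hu
  unfold gperm at hu
  rw [Matrix.permanent] at hu
  obtain ⟨τ, -, hτ⟩ := Finset.mem_biUnion.mp (support_sum hu)
  have h1 : (∏ i, (Matrix.of fun i j => (X (i, j) : MvPolynomial (Fin n × Fin n) K)) (τ i) i) =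
      monomial (∑ i, Finsupp.single (τ i, i) 1) 1 := by
    rw [monomial_sum_one]
    rfl
  rw [h1] at hτ
  have h2 := Finset.mem_singleton.mp (support_monomial_subset hτ)
  rw [h2, Finsupp.finsetSum_apply]
  calc ∑ i, (Finsupp.single (τ i, i) 1 : (Fin n × Fin n) →₀ ℕ) v
      ≤ ∑ i, if i = v.2 then 1 else 0 := by
        refine Finset.sum_le_sum fun i _ => ?_
        rw [Finsupp.single_apply]
        split_ifs with h3 h4 h4
        · exact le_rfl
        · exact absurd (by rw [← h3]) h4
        · exact Nat.zero_le _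
        · exact le_rfl
    _ = 1 := by simp

lemma eval_gperm {K : Type} [Field K] (n : ℕ) (M : Matrix (Fin n) (Fin n) ℕ) :
    eval (fun v => (M v.1 v.2 : K)) (gperm K n) = (M.permanent : K) := by
  unfold gperm
  rw [Matrix.permanent, Matrix.permanent, map_sum, Nat.cast_sum]
  refine Finset.sum_congr rfl fun τ _ => ?_
  rw [map_prod, Nat.cast_prod]
  refine Finset.prod_congr rfl fun i _ => ?_
  simp only [Matrix.of_apply, eval_X]

lemma gperm_ne_zero {K : Type} [Field K] [CharZero K] (n : ℕ) : gperm K n ≠ 0 := by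
  classical
  intro h
  unfold gperm at h
  have h1 := congrArg (aeval (R := K) (fun x : Fin n × Fin n => if x.1 = x.2 then (1:K) else 0)) h
  rw [Matrix.permanent, map_sum, map_zero] at h1
  simp only [map_prod, Matrix.of_apply, aeval_X] at h1
  rw [Finset.sum_eq_single (1 : Equiv.Perm (Fin n))] at h1
  · simp at h1
  · intro σ _ hσ
    have : ∃ i, σ i ≠ i := by
      by_contra hcon
      push Not at hcon
      exact hσ (Equiv.ext hcon)
    obtain ⟨i, hi⟩ := this
    exact Finset.prod_eq_zero (Finset.mem_univ i) (by simp [hi])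
  · intro h; exact absurd (Finset.mem_univ _) h

/-- a coefficient of degree `n` which does not vanish -/
lemma exists_coeff {K : Type} [Field K] [CharZero K] (n : ℕ) :
    ∃ u : (Fin n × Fin n) →₀ ℕ, coeff u (gperm K n) ≠ 0 ∧ u.degree = n := by
  classical
  have hne : gperm K n ≠ 0 := gperm_ne_zero n
  obtain ⟨u, hu⟩ := support_nonempty.mpr hne
  refine ⟨u, mem_support_iff.mp hu, ?_⟩
  have hhom : (gperm K n).IsHomogeneous n := by
    unfold gperm
    rw [Matrix.permanent]
    apply IsHomogeneous.sum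
    intro τ _
    have := IsHomogeneous.prod Finset.univ
      (fun i => (Matrix.of fun i j => (X (i, j) : MvPolynomial (Fin n × Fin n) K)) (τ i) i)
      (fun _ => 1) (fun i _ => isHomogeneous_X K _)
    simpa using this
  have h1 := hhom (mem_support_iff.mp hu)
  have h2 : u.degree = Finsupp.weight 1 u := by
    rw [Finsupp.degree_eq_weight_one]
    rfl
  rw [h2]
  exact h1

/-- exponents bounded in every variable -/
lemma exists_box (σ : Type) [Finite σ] (b : ℕ) :
    ∃ S : Finset (σ →₀ ℕ), ∀ u : σ →₀ ℕ, (∀ v, u v ≤ b) → u ∈ S := by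
  classical
  have := Fintype.ofFinite σ
  refine ⟨(Finset.univ : Finset (σ → Fin (b + 1))).image
    (fun g => Finsupp.equivFunOnFinite.symm fun v => (g v : ℕ)), fun u hu => ?_⟩
  refine Finset.mem_image.mpr ⟨fun v => ⟨u v, Nat.lt_succ_of_le (hu v)⟩, Finset.mem_univ _, ?_⟩
  ext v
  simp

/-- sequences from the approximation hypothesis -/
theorem exists_seq {K : Type} [NormedField K] [CharZero K] {n m d nu T : ℕ} (hb : 1 ≤ m * d + nu)
    (h : Apx K n m d nu T) :
    ∃ (B : ℕ → Fin T → Pool.PF.Cell (2 * m) → MvPolynomial (Fin n × Fin n) K)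
      (f : ℕ → Fin T → MvPolynomial (Fin n × Fin n) K) (S : Finset ((Fin n × Fin n) →₀ ℕ)),
      (∀ r t c, (B r t c).totalDegree ≤ d) ∧
      (∀ r t, f r t ∈ Pool.SDD.Wl (fun j => aeval (B r t) (Pool.PF.pfam K (2 * m) m j)) nu) ∧
      (∀ r t, (f r t).totalDegree ≤ m * d + nu) ∧
      (∀ r, (∑ t, f r t).support ⊆ S) ∧
      ∀ u, Tendsto (fun r => coeff u (∑ t, f r t)) atTop (𝓝 (coeff u (gperm K n))) := by
  classical
  choose s P A hs hP hA hM using fun r : ℕ => h (1 / ((r : ℝ) + 1)) (by positivity)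
  choose B hB1 hB2 using fun (r : ℕ) (t : Fin T) =>
    Pool.PF.exists_aeval (hs r t) d (A r t) (hA r t)
  obtain ⟨S, hS⟩ := exists_box (Fin n × Fin n) (m * d + nu)
  have hdeg : ∀ r t, (P r t * Pool.PF.pf (s r t) (A r t)).totalDegree ≤ m * d + nu := by
    intro r t
    refine (totalDegree_mul _ _).trans ?_
    have h1 := (Pool.PF.totalDegree_pf_le d (s r t) (A r t) (hA r t)).trans
      (Nat.mul_le_mul_right d (hs r t))
    have h2 := hP r t
    omega
  have hsumdeg : ∀ r, (∑ t, P r t * Pool.PF.pf (s r t) (A r t)).totalDegree ≤ m * d + nu := by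
    intro r
    exact (totalDegree_finsetSum _ _).trans (Finset.sup_le fun t _ => hdeg r t)
  refine ⟨B, fun r t => P r t * Pool.PF.pf (s r t) (A r t), S, hB1, ?_, hdeg, ?_, ?_⟩
  · intro r t
    have h0 : aeval (B r t) (Pool.PF.pfam K (2 * m) m (RelEmbedding.refl _)) ∈
        Pool.SDD.Wl (fun j => aeval (B r t) (Pool.PF.pfam K (2 * m) m j)) 0 :=
      Submodule.subset_span ⟨0, RelEmbedding.refl _, by simp, by simp⟩
    have h1 := Pool.SDD.mul_mem_Wl (hP r t) h0
    rw [Nat.add_zero] at h1
    change P r t * Pool.PF.pf (s r t) (A r t) ∈ _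
    rw [hB2 r t]
    exact h1
  · intro r u hu
    apply hS
    intro v
    have h1 := le_totalDegree hu
    exact ((Finsupp.le_degree v u).trans (le_of_eq rfl)).trans (h1.trans (hsumdeg r))
  · refine Pool.PF.grid_tendsto (m * d + nu)
      (fun r => ∑ t, P r t * Pool.PF.pf (s r t) (A r t)) (gperm K n) ?_ ?_ ?_
    · intro r v
      exact (degreeOf_le_totalDegree _ _).trans (hsumdeg r)
    · intro v
      exact (degreeOf_gperm_le n v).trans hb
    · intro M hMb
      obtain ⟨M', hM'⟩ : ∃ M' : Matrix (Fin n) (Fin n) ℕ, ∀ a b, M' a b = M (a, b) :=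
        ⟨Matrix.of fun a b => M (a, b), fun a b => rfl⟩
      have e1 : (fun v : Fin n × Fin n => (M v : K)) = fun v => (M' v.1 v.2 : K) := by
        funext v
        rw [hM']
      rw [e1, eval_gperm]
      rw [tendsto_iff_norm_sub_tendsto_zero]
      have h1 : ∀ r : ℕ, ‖eval (fun v => (M' v.1 v.2 : K))
          (∑ t, P r t * Pool.PF.pf (s r t) (A r t)) - (M'.permanent : K)‖ ≤
          1 / ((r : ℝ) + 1) := by
        intro r
        rw [norm_sub_rev, map_sum]
        have h2 := hM r M' (fun a b => by rw [hM']; exact hMb _)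
        have h3 : ∀ t, eval (fun v => (M' v.1 v.2 : K)) (P r t * Pool.PF.pf (s r t) (A r t)) =
            eval (fun v => (M' v.1 v.2 : K)) (P r t) *
              Pool.PF.pf (s r t) ((A r t).map (eval fun v => (M' v.1 v.2 : K))) := by
          intro t
          rw [map_mul, Pool.PF.eval_pf]
        rw [Finset.sum_congr rfl fun t _ => h3 t]
        exact h2.le
      exact squeeze_zero (fun r => norm_nonneg _) h1 tendsto_one_div_add_atTop_nhds_zero_nat

/-- at least one summand, and the degree is large enough -/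
theorem basic_bounds {K : Type} [NormedField K] [CharZero K] {n m d nu T : ℕ}
    (hb : 1 ≤ m * d + nu) (h : Apx K n m d nu T) : 1 ≤ T ∧ n ≤ m * d + nu := by
  classical
  obtain ⟨B, f, S, -, -, hdeg, -, hconv⟩ := exists_seq hb h
  obtain ⟨u, hu, hun⟩ := exists_coeff (K := K) n
  constructor
  · by_contra hT
    have hT0 : T = 0 := by omega
    subst hT0
    have h1 := hconv u
    simp only [Finset.univ_eq_empty, Finset.sum_empty, coeff_zero] at h1
    exact hu (tendsto_nhds_unique tendsto_const_nhds h1).symm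
  · by_contra hn
    have h1 := hconv u
    have h2 : ∀ r, coeff u (∑ t, f r t) = 0 := by
      intro r
      by_contra hne
      have h3 := le_totalDegree (mem_support_iff.mpr hne)
      have h4 : (∑ t, f r t).totalDegree ≤ m * d + nu :=
        (totalDegree_finsetSum _ _).trans (Finset.sup_le fun t _ => hdeg r t)
      have h5 : (u.sum fun _ e => e) = u.degree := rfl
      rw [h5, hun] at h3
      omega
    simp only [h2] at h1
    exact hu (tendsto_nhds_unique tendsto_const_nhds h1).symm

/-- the main inequality -/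
theorem main_real {K : Type} [NormedField K] [CharZero K] {n m d nu T D N a : ℕ}
    (hmd : ∀ k, k + D = m → Pool.SDD.MixedDer K ((Fin D ⊕ Fin D) × Option (Fin N))
      (Pool.PF.pfam K (2 * m)) k D nu d)
    (hd : 1 ≤ d) (haN : a < N) (hn : D * (2 * (N + a) + 1) ≤ n) (hD : D < m)
    (h : Apx K n m d nu T) (q : ℝ) (hq0 : 0 < q) (hq1 : q < 1) :
    q ^ (nu + D * (d - 1)) * (1 - (1 - q ^ N) ^ (a + 1)) ^ (2 * D) ≤
      q ^ ((N - a) * (2 * D)) * (T * ∑ j ∈ Finset.range (2 * D + 1),
        (Nat.choose (2 * m - 2 * D - 1 + j) j : ℝ) * (1 - q ^ d) ^ j) := by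
  classical
  have hb : 1 ≤ m * d + nu := by
    have : 1 ≤ m * d := Nat.one_le_iff_ne_zero.mpr (Nat.mul_ne_zero (by omega) (by omega))
    omega
  obtain ⟨B, f, S, hB, hf, hdeg, hS, hconv⟩ := exists_seq hb h
  obtain ⟨k, hk⟩ : ∃ k, m = k + D := ⟨m - D, by omega⟩
  have hk1 : 1 ≤ k := by omega
  have hQ : ENNReal.ofReal q < 1 := by
    rw [← ENNReal.ofReal_one]
    exact (ENNReal.ofReal_lt_ofReal_iff (by norm_num)).mpr hq1
  obtain ⟨φ0, φ, hφ1, hφ2, hφ3⟩ := Pool.SDD.R1 (K := K) hn
  have hf' : ∀ r t, f r t ∈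
      Pool.SDD.Wl (fun j => aeval (B r t) (Pool.PF.pfam K (2 * m) (k + D) j)) nu := by
    intro r t
    have := hf r t
    rw [← hk]
    exact this
  have key := Pool.SDD.main_ineq_border haN (Pool.PF.pfam K (2 * m) (k + D))
    (Pool.PF.pfam K (2 * m) k) φ0 φ hφ1 hφ2 hφ3 (hmd k hk.symm) (ENNReal.ofReal q) hQ _
    (fun A' hA' => Pool.SDD.pf_hU hk1 (by omega) hd A' hA' _ hQ) B hB f hf' S hS hconv
  have h2 := Pool.SDD.real_transfer (k := 2 * k - 1) (b := 2 * (m - k) + 1) q hq0 hq1 key
  rw [show 2 * (m - k) + 1 = 2 * D + 1 by omega, show 2 * k - 1 = 2 * m - 2 * D - 1 by omega] at h2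
  exact h2

end Pool.SDF
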