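import Pool.Agent.SDet.SatCount

/-!
Counting satisfying assignments: from the main inequality and the numerics to the theorem.
-/

set_option autoImplicit false

namespace Pool.SatCount

open Finset MvPolynomial Pool.SatDet
open scoped BigOperators

variable {n k : ℕ}

open Classical in
theorem eval_satPoly (K : Type) [Field K] (w : Clause n k → K) :
    eval w (satPoly K n k) =
      ∑ a : Fin n → Bool, ∏ C ∈ univ.filter (fun C : Clause n k => ¬ Sats a C), w C := by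
  unfold satPoly
  rw [map_sum]
  refine Finset.sum_congr rfl fun a _ => ?_
  rw [map_prod]
  simp only [eval_X]

theorem exists_coeff (K : Type) [Field K] [CharZero K] (n k : ℕ) :
    ∃ u : Clause n k →₀ ℕ, coeff u (satPoly K n k) ≠ 0 := by
  classical
  by_contra hcon
  push Not at hcon
  have h0 : satPoly K n k = 0 := by
    ext u
    rw [hcon u, coeff_zero]
  have h1 := eval_satPoly (n := n) (k := k) K (fun _ => (1 : K))
  rw [h0, map_zero] at h1
  simp only [Finset.prod_const_one, Finset.sum_const, nsmul_eq_mul, mul_one] at h1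
  have h2 : (((Finset.univ : Finset (Fin n → Bool)).card : ℕ) : K) ≠ 0 := by
    rw [Nat.cast_ne_zero]
    exact (Finset.card_pos.2 ⟨fun _ => false, Finset.mem_univ _⟩).ne'
  exact h2 h1.symm

/-- the numerical statement (helper59) -/
def NumPf : Prop := ∀ ε : ℝ, 0 < ε → ∃ K : ℕ, 1 ≤ K ∧ ∀ n k m d nu T : ℕ, K ≤ k → K * k ≤ n →
  1 ≤ d → (m * d : ℝ) ≤ 2 ^ (k / K : ℝ) * n.choose k → n * d ≤ n.choose k → 1 ≤ T →
  (∀ D m' : ℕ, 1 ≤ D → D * k ≤ n → m ≤ m' → D < m' → ∀ q : ℝ, 0 < q → q < 1 →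
    q ^ (nu + D * (d - 1)) * 2 ^ (D * k) ≤
      (∑ j ∈ range (D * k + 1),
        ((D * k).choose j : ℝ) * q ^ (n.choose k - (n - j).choose k - j)) *
      (T * ∑ j ∈ range (2 * D + 1), ((2 * m' - 2 * D - 1 + j).choose j : ℝ) * (1 - q ^ d) ^ j)) →
  (2 : ℝ) ^ ((1 - nu / n.choose k - ε) * n) ≤ T

open Classical in
theorem final_of (hN : NumPf) : ∀ ε : ℝ, 0 < ε → ∃ K₀ : ℕ, 1 ≤ K₀ ∧
    ∀ (K : Type) [NormedField K] [CharZero K] (n k m d nu r : ℕ), K₀ ≤ k → K₀ * k ≤ n →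
    1 ≤ m → 1 ≤ d → (m * d : ℝ) ≤ 2 ^ (k / K₀ : ℝ) * n.choose k → n * d ≤ n.choose k →
    (∀ δ : ℝ, 0 < δ → ∃ (s : Fin r → ℕ) (P : Fin r → MvPolynomial (Clause n k) K)
      (A : ∀ i, Matrix (Fin (2 * s i)) (Fin (2 * s i)) (MvPolynomial (Clause n k) K)),
      (∀ i, s i ≤ m) ∧ (∀ i, (P i).totalDegree ≤ nu) ∧ (∀ i p q, (A i p q).totalDegree ≤ d) ∧
      ∀ w : Clause n k → ℕ, (∀ C, w C ≤ m * d + nu) →
        ‖∑ a : Fin n → Bool, ∏ C ∈ univ.filter (fun C : Clause n k => ¬ Sats a C), (w C : K) -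
          ∑ i, eval (fun C => (w C : K)) (P i) *
            Pool.PF.pf (s i) ((A i).map (eval fun C => (w C : K)))‖ < δ) →
    (2 : ℝ) ^ ((1 - nu / n.choose k - ε) * n) ≤ r := by
  intro ε hε
  obtain ⟨K₀, hK1, H⟩ := hN ε hε
  refine ⟨K₀, hK1, ?_⟩
  intro K _ _ n k m d nu r hk hn hm hd hmd hnd h
  have hApx : Pool.SDG.Apx K (satPoly K n k) m d nu r := by
    intro δ hδ
    obtain ⟨s, P, A, h1, h2, h3, h4⟩ := h δ hδ
    refine ⟨s, P, A, h1, h2, h3, fun w hw => ?_⟩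
    rw [eval_satPoly]
    exact h4 w hw
  have hdeg : ∀ v, (satPoly K n k).degreeOf v ≤ m * d + nu := by
    intro v
    have h1 := degreeOf_satPoly (n := n) (k := k) K v
    have h2 : 1 ≤ m * d := Nat.one_le_iff_ne_zero.mpr (Nat.mul_ne_zero (by omega) (by omega))
    omega
  obtain ⟨u, hu⟩ := exists_coeff K n k
  obtain ⟨hr, -⟩ := Pool.SDG.basic_bounds (satPoly K n k) hdeg hApx u hu
  have hk0 : 0 < k := by omega
  have hkn : k ≤ n := (Nat.le_mul_of_pos_left k (by omega)).trans hn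
  exact H n k m d nu r hk hn hd hmd hnd hr (fun D m' _ hDk hm' hDm q hq0 hq1 =>
    main_real K hm hm' hk0 hkn hDk hd hDm hApx q hq0 hq1)

end Pool.SatCount
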